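import Mathlib

/-!
# Null sequences in the augmentation ideal: operators on `ℓ^p`

Composition operators, convolution with summable functions.
-/

set_option autoImplicit false

open scoped ENNReal NNReal

namespace Pool.Agent.H14.NS

/-- complex `ℓ^p` of a type -/
noncomputable abbrev L (p : ℝ≥0∞) (κ : Type*) := lp (fun _ : κ => ℂ) p

section Comp

variable {p : ℝ≥0∞} {κ κ' κ'' : Type*}

lemma toReal_pos' [hp : Fact (1 ≤ p)] (hp' : p ≠ ∞) : 0 < p.toReal := by
  have h1 : (1 : ℝ≥0∞) ≤ p := hp.out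
  exact ENNReal.toReal_pos (by intro h; rw [h] at h1; exact absurd h1 (by simp)) hp'

lemma memlp_comp [Fact (1 ≤ p)] (hp' : p ≠ ∞) {f : κ' → ℂ} (hf : Memℓp f p)
    {π : κ → κ'} (hπ : Function.Injective π) : Memℓp (fun i => f (π i)) p := by
  rw [memℓp_gen_iff (toReal_pos' hp')] at hf ⊢
  exact hf.comp_injective hπ

/-- composition with an injective map, as an operator -/
noncomputable def compL (p : ℝ≥0∞) [Fact (1 ≤ p)] (hp' : p ≠ ∞) (π : κ → κ')
    (hπ : Function.Injective π) : L p κ' →L[ℂ] L p κ :=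
  LinearMap.mkContinuous
    { toFun := fun x => ⟨fun i => x (π i), memlp_comp hp' (lp.memℓp x) hπ⟩
      map_add' := fun x y => by ext i; rfl
      map_smul' := fun a x => by ext i; rfl } 1 (by
    intro x
    rw [one_mul]
    refine lp.norm_le_of_tsum_le (toReal_pos' hp') (norm_nonneg _) ?_
    rw [lp.norm_rpow_eq_tsum (toReal_pos' hp')]
    exact tsum_comp_le_tsum_of_inj (((memℓp_gen_iff (toReal_pos' hp')).1 (lp.memℓp x)))
      (fun _ => by positivity) hπ)

@[simp] lemma compL_apply [Fact (1 ≤ p)] (hp' : p ≠ ∞) (π : κ → κ') (hπ : Function.Injective π)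
    (x : L p κ') (i : κ) : compL p hp' π hπ x i = x (π i) := rfl

lemma norm_compL_le [Fact (1 ≤ p)] (hp' : p ≠ ∞) (π : κ → κ') (hπ : Function.Injective π) :
    ‖compL p hp' π hπ‖ ≤ 1 := by
  unfold compL
  exact LinearMap.mkContinuous_norm_le _ zero_le_one _

lemma norm_compL_apply_le [Fact (1 ≤ p)] (hp' : p ≠ ∞) (π : κ → κ') (hπ : Function.Injective π)
    (x : L p κ') : ‖compL p hp' π hπ x‖ ≤ ‖x‖ := by
  have := (compL p hp' π hπ).le_of_opNorm_le (norm_compL_le hp' π hπ) x
  simpa using this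

end Comp

section Conv

variable {p : ℝ≥0∞} {G : Type*} [Group G]

lemma inj_right (h : G) : Function.Injective (fun y : G => y * h⁻¹) := mul_left_injective _

/-- right translation -/
noncomputable def rho (p : ℝ≥0∞) [Fact (1 ≤ p)] (hp' : p ≠ ∞) (h : G) : L p G →L[ℂ] L p G :=
  compL p hp' (fun y : G => y * h⁻¹) (inj_right h)

lemma summable_conv [Fact (1 ≤ p)] (hp' : p ≠ ∞) {c : G → ℂ} (hc : Summable (fun h => ‖c h‖)) :
    Summable (fun h => c h • rho p hp' h) := by
  refine Summable.of_norm_bounded hc fun h => ?_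
  rw [norm_smul]
  exact mul_le_of_le_one_right (norm_nonneg _) (norm_compL_le hp' _ _)

/-- right convolution `x ↦ x * c` -/
noncomputable def convR (p : ℝ≥0∞) [Fact (1 ≤ p)] (hp' : p ≠ ∞) (c : G → ℂ) : L p G →L[ℂ] L p G :=
  ∑' h, c h • rho p hp' h

lemma norm_convR_le [Fact (1 ≤ p)] (hp' : p ≠ ∞) {c : G → ℂ} (hc : Summable (fun h => ‖c h‖)) :
    ‖convR p hp' c‖ ≤ ∑' h, ‖c h‖ := by
  unfold convR
  refine tsum_of_norm_bounded hc.hasSum fun h => ?_
  rw [norm_smul]
  exact mul_le_of_le_one_right (norm_nonneg _) (norm_compL_le hp' _ _)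

lemma convR_eq_tsum [Fact (1 ≤ p)] (hp' : p ≠ ∞) {c : G → ℂ} (hc : Summable (fun h => ‖c h‖))
    (x : L p G) : HasSum (fun h => c h • rho p hp' h x) (convR p hp' c x) := by
  have h1 := (summable_conv hp' hc).hasSum
  exact h1.mapL (ContinuousLinearMap.apply ℂ (L p G) x)

lemma convR_apply [Fact (1 ≤ p)] (hp' : p ≠ ∞) {c : G → ℂ} (hc : Summable (fun h => ‖c h‖))
    (x : L p G) (y : G) : HasSum (fun h => c h * x (y * h⁻¹)) (convR p hp' c x y) := by
  have h1 := convR_eq_tsum hp' hc x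
  exact h1.mapL (lp.evalCLM ℂ (fun _ : G => ℂ) (p := p) y)

end Conv

end Pool.Agent.H14.NS
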