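import Mathlib

/-!
# Last letters of reduced words
-/

set_option autoImplicit false

namespace Pool.Agent.H14.NS

open FreeGroup

variable {ι : Type*} [DecidableEq ι]

/-- the last letter of the reduced word -/
def lastL (g : FreeGroup ι) : Option (ι × Bool) := g.toWord.getLast?

lemma lastL_one : lastL (1 : FreeGroup ι) = none := by
  simp [lastL]

lemma lastL_of (k : ι) : lastL (FreeGroup.of k) = some (k, true) := by
  simp [lastL]

lemma lastL_of_inv (k : ι) : lastL (FreeGroup.of k)⁻¹ = some (k, false) := by
  simp [lastL, FreeGroup.toWord_inv, FreeGroup.invRev]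

lemma lastL_mul_mk {g : FreeGroup ι} {k : ι} {b : Bool} (h : lastL g ≠ some (k, !b)) :
    lastL (g * FreeGroup.mk [(k, b)]) = some (k, b) := by
  unfold lastL at *
  rw [FreeGroup.toWord_mul, FreeGroup.toWord_mk, FreeGroup.reduce_singleton]
  have hr : FreeGroup.IsReduced (g.toWord ++ [(k, b)]) := by
    unfold FreeGroup.IsReduced
    rw [List.isChain_append]
    refine ⟨FreeGroup.isReduced_toWord, List.isChain_singleton _, ?_⟩
    intro x hx y hy
    simp only [List.head?_cons, Option.mem_some_iff] at hy
    subst hy
    intro hk
    by_contra hb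
    apply h
    have hx' : g.toWord.getLast? = some x := hx
    rw [hx']
    obtain ⟨x1, x2⟩ := x
    simp only at hk hb
    subst hk
    congr 2
    cases x2 <;> cases b <;> simp_all
  rw [hr.reduce_eq]
  simp

lemma lastL_mul_of {g : FreeGroup ι} {k : ι} (h : lastL g ≠ some (k, false)) :
    lastL (g * FreeGroup.of k) = some (k, true) :=
  lastL_mul_mk (b := true) h

lemma lastL_mul_of_inv {g : FreeGroup ι} {k : ι} (h : lastL g = some (k, false)) :
    lastL (g * (FreeGroup.of k)⁻¹) = some (k, false) := by
  have e : (FreeGroup.of k)⁻¹ = FreeGroup.mk [(k, false)] := by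
    simp [FreeGroup.of, FreeGroup.inv_mk, FreeGroup.invRev]
  rw [e]
  refine lastL_mul_mk (b := false) ?_
  rw [h]
  simp

lemma last_append (L2 : List (ι × Bool)) : ∀ L1 : List (ι × Bool), FreeGroup.IsReduced L1 →
    FreeGroup.IsReduced L2 → L2 ≠ [] →
    (FreeGroup.reduce (L1 ++ L2)).getLast? = L2.getLast? ∨ ∃ L, L1 = L ++ FreeGroup.invRev L2 := by
  induction L2 with
  | nil => intro L1 _ _ h; exact absurd rfl h
  | cons t L2' ih =>
    intro L1 h1 h2 _
    by_cases hc : ∃ L1', L1 = L1' ++ [(t.1, !t.2)]
    · obtain ⟨L1', rfl⟩ := hc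
      have e : FreeGroup.reduce (L1' ++ [(t.1, !t.2)] ++ t :: L2') =
          FreeGroup.reduce (L1' ++ L2') := by
        apply FreeGroup.reduce.Step.eq
        have := @FreeGroup.Red.Step.not _ L1' L2' t.1 (!t.2)
        simpa using this
      rw [e]
      by_cases hn : L2' = []
      · right
        subst hn
        exact ⟨L1', by simp [FreeGroup.invRev]⟩
      · have h1' : FreeGroup.IsReduced L1' := by
          unfold FreeGroup.IsReduced at h1 ⊢
          exact (List.isChain_append.1 h1).1
        have h2' : FreeGroup.IsReduced L2' := by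
          unfold FreeGroup.IsReduced at h2 ⊢
          exact h2.tail
        rcases ih L1' h1' h2' hn with h | ⟨L, hL⟩
        · left
          rw [h]
          exact (List.getLast?_cons_of_ne_nil hn).symm
        · right
          refine ⟨L, ?_⟩
          rw [hL]
          simp [FreeGroup.invRev]
    · left
      have hr : FreeGroup.IsReduced (L1 ++ t :: L2') := by
        unfold FreeGroup.IsReduced
        rw [List.isChain_append]
        refine ⟨h1, h2, ?_⟩
        intro x hx y hy
        simp only [List.head?_cons, Option.mem_some_iff] at hy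
        subst hy
        intro hk
        by_contra hb
        apply hc
        have hx' : L1.getLast? = some x := hx
        obtain ⟨l, hl⟩ := List.getLast?_eq_some_iff.1 hx'
        refine ⟨l, ?_⟩
        rw [hl]
        obtain ⟨x1, x2⟩ := x
        obtain ⟨t1, t2⟩ := t
        simp only at hk hb
        subst hk
        cases x2 <;> cases t2 <;> simp_all
      rw [hr.reduce_eq]
      rw [List.getLast?_append]
      cases h : (t :: L2').getLast? with
      | none => simp at h
      | some v => simp

lemma lastL_mul (g y : FreeGroup ι) (hy : y ≠ 1) :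
    lastL (g * y) = lastL y ∨ ∃ L, g.toWord = L ++ (y⁻¹).toWord := by
  unfold lastL
  rw [FreeGroup.toWord_mul, FreeGroup.toWord_inv]
  exact last_append _ _ FreeGroup.isReduced_toWord FreeGroup.isReduced_toWord
    (fun h => hy (FreeGroup.toWord_eq_nil_iff.1 h))

/-- indicator of the elements ending with the generator `k` -/
noncomputable def chi (k : ι) (g : FreeGroup ι) : ℂ := if lastL g = some (k, true) then 1 else 0

lemma chi_of_mul (k j : ι) (y : FreeGroup ι) :
    chi k (FreeGroup.of j * y) - chi k y = if y = 1 ∧ j = k then 1 else 0 := by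
  by_cases hy : y = 1
  · subst hy
    unfold chi
    rw [mul_one, lastL_of, lastL_one]
    by_cases hj : j = k
    · simp [hj]
    · simp [hj]
  · rw [if_neg (fun h => hy h.1)]
    rcases lastL_mul (FreeGroup.of j) y hy with h | ⟨L, hL⟩
    · unfold chi; rw [h]; ring
    · rw [FreeGroup.toWord_of] at hL
      have hne : (y⁻¹).toWord ≠ [] := by
        intro h
        exact hy (inv_eq_one.1 (FreeGroup.toWord_eq_nil_iff.1 h))
      have hL0 : L = [] := by
        by_contra hL0
        have hlen := congrArg List.length hL
        rw [List.length_append] at hlen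
        have a1 := List.length_pos_of_ne_nil hL0
        have a2 := List.length_pos_of_ne_nil hne
        simp only [List.length_singleton] at hlen
        omega
      rw [hL0, List.nil_append, ← FreeGroup.toWord_of] at hL
      have hyj : y = (FreeGroup.of j)⁻¹ := by
        rw [← inv_inv y, ← FreeGroup.toWord_injective hL]
      subst hyj
      unfold chi
      rw [mul_inv_cancel, lastL_one, lastL_of_inv]
      simp

lemma chi_norm_le (k : ι) (g : FreeGroup ι) : ‖chi k g‖ ≤ 1 := by
  unfold chi; split_ifs <;> simp

/-- for fixed `g` and `l` there is at most one `y` of norm `l` with `chi k (g y) ≠ chi k y`, and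
it needs `l ≤ norm g` -/
lemma chi_mul_unique (k : ι) (g y y' : FreeGroup ι) (h : chi k (g * y) ≠ chi k y)
    (h' : chi k (g * y') ≠ chi k y') (hn : y.norm = y'.norm) : y = y' := by
  by_cases hy : y = 1
  · subst hy
    rw [FreeGroup.norm_one] at hn
    exact (FreeGroup.norm_eq_zero.1 hn.symm).symm
  · have hy' : y' ≠ 1 := by
      rintro rfl
      rw [FreeGroup.norm_one] at hn
      exact hy (FreeGroup.norm_eq_zero.1 hn)
    have a1 : ∃ L, g.toWord = L ++ (y⁻¹).toWord := by
      rcases lastL_mul g y hy with e | e
      · exact absurd (by unfold chi; rw [e]) h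
      · exact e
    have a2 : ∃ L, g.toWord = L ++ (y'⁻¹).toWord := by
      rcases lastL_mul g y' hy' with e | e
      · exact absurd (by unfold chi; rw [e]) h'
      · exact e
    obtain ⟨L, hL⟩ := a1
    obtain ⟨L', hL'⟩ := a2
    have hlen : (y⁻¹).toWord.length = (y'⁻¹).toWord.length := by
      have b1 : (y⁻¹).norm = (y'⁻¹).norm := by
        rw [FreeGroup.norm_inv_eq, FreeGroup.norm_inv_eq, hn]
      exact b1
    have e := List.append_inj_right' (hL.symm.trans hL') hlen
    exact inv_injective (FreeGroup.toWord_injective e)

lemma chi_mul_norm (k : ι) (g y : FreeGroup ι) (h : chi k (g * y) ≠ chi k y) :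
    y.norm ≤ g.norm := by
  by_cases hy : y = 1
  · subst hy; simp
  · rcases lastL_mul g y hy with e | ⟨L, hL⟩
    · exact absurd (by unfold chi; rw [e]) h
    · have := congrArg List.length hL
      rw [List.length_append] at this
      rw [← FreeGroup.norm_inv_eq (x := y)]
      unfold FreeGroup.norm
      omega

end Pool.Agent.H14.NS
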