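import Pool.Agent.H14.NS.Conv
import Pool.Agent.H14.NS.Letters

/-!
# Averages over children in the free group
-/

set_option autoImplicit false

open scoped ENNReal NNReal

namespace Pool.Agent.H14.NS

section SComp

variable {p : ℝ≥0∞} {κ κ' : Type*}

/-- composition with an injective map followed by a multiplication with numbers of modulus one -/
noncomputable def scompL (p : ℝ≥0∞) [Fact (1 ≤ p)] (hp' : p ≠ ∞) (s : κ → ℂ) (hs : ∀ i, ‖s i‖ ≤ 1)
    (π : κ → κ') (hπ : Function.Injective π) : L p κ' →L[ℂ] L p κ :=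
  LinearMap.mkContinuous
    { toFun := fun x => ⟨fun i => s i * x (π i), by
        have h1 := memlp_comp hp' (lp.memℓp x) hπ
        change Memℓp (fun i => s i * x (π i)) p
        rw [memℓp_gen_iff (toReal_pos' hp')] at h1 ⊢
        refine Summable.of_nonneg_of_le (fun _ => by positivity) (fun i => ?_) h1
        have h0 : ‖s i * x (π i)‖ ≤ ‖x (π i)‖ := by
          rw [norm_mul]
          exact mul_le_of_le_one_left (norm_nonneg _) (hs i)
        exact Real.rpow_le_rpow (norm_nonneg _) h0 (toReal_pos' hp').le⟩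
      map_add' := fun x y => by
        ext i
        show s i * (x (π i) + y (π i)) = s i * x (π i) + s i * y (π i)
        ring
      map_smul' := fun a x => by
        ext i
        show s i * (a * x (π i)) = a * (s i * x (π i))
        ring } 1 (by
    intro x
    rw [one_mul]
    refine lp.norm_le_of_tsum_le (toReal_pos' hp') (norm_nonneg _) ?_
    rw [lp.norm_rpow_eq_tsum (toReal_pos' hp')]
    have hx := ((memℓp_gen_iff (toReal_pos' hp')).1 (lp.memℓp x))
    have h2 : ∀ i, ‖s i * x (π i)‖ ^ p.toReal ≤ ‖x (π i)‖ ^ p.toReal := by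
      intro i
      refine Real.rpow_le_rpow (norm_nonneg _) ?_ (toReal_pos' hp').le
      rw [norm_mul]
      exact mul_le_of_le_one_left (norm_nonneg _) (hs i)
    have h3 : Summable (fun i => ‖x (π i)‖ ^ p.toReal) := hx.comp_injective hπ
    refine le_trans (Summable.tsum_le_tsum h2 (Summable.of_nonneg_of_le (fun _ => by positivity)
      h2 h3) h3) ?_
    exact tsum_comp_le_tsum_of_inj hx (fun _ => by positivity) hπ)

@[simp] lemma scompL_apply [Fact (1 ≤ p)] (hp' : p ≠ ∞) (s : κ → ℂ) (hs : ∀ i, ‖s i‖ ≤ 1)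
    (π : κ → κ') (hπ : Function.Injective π)
    (x : L p κ') (i : κ) : scompL p hp' s hs π hπ x i = s i * x (π i) := rfl

lemma norm_scompL_le [Fact (1 ≤ p)] (hp' : p ≠ ∞) (s : κ → ℂ) (hs : ∀ i, ‖s i‖ ≤ 1)
    (π : κ → κ') (hπ : Function.Injective π) :
    ‖scompL p hp' s hs π hπ‖ ≤ 1 := by
  unfold scompL
  exact LinearMap.mkContinuous_norm_le _ zero_le_one _

end SComp

section Avg

variable {κ : Type*} {α : Type*}

/-- averages over finitely many injective maps with disjoint images: norm on `ℓ^p` -/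
lemma avg_rpow_le {p : ℝ≥0∞} [Fact (1 ≤ p)] (hp' : p ≠ ∞) (S : Finset α) (hS : S.Nonempty)
    (φ : α → κ → κ) (hφ : ∀ k ∈ S, ∀ k' ∈ S, ∀ g g', φ k g = φ k' g' → k = k' ∧ g = g')
    (x y : L p κ) (hy : ∀ g, y g = ((S.card : ℂ))⁻¹ * ∑ k ∈ S, x (φ k g)) :
    ‖y‖ ^ p.toReal ≤ (S.card : ℝ)⁻¹ * ‖x‖ ^ p.toReal := by
  have hp0 := toReal_pos' hp'
  have hp1 : 1 ≤ p.toReal := by
    have h1 := (Fact.out : (1 : ℝ≥0∞) ≤ p)
    have := ENNReal.toReal_mono hp' h1
    simpa using this
  have hc0 : (0 : ℝ) < S.card := by exact_mod_cast hS.card_pos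
  have hx := ((memℓp_gen_iff hp0).1 (lp.memℓp x))
  rw [lp.norm_rpow_eq_tsum hp0, lp.norm_rpow_eq_tsum hp0]
  have hinj : Function.Injective (fun q : κ × {k // k ∈ S} => φ q.2 q.1) := by
    rintro ⟨g, k, hk⟩ ⟨g', k', hk'⟩ h
    obtain ⟨e1, e2⟩ := hφ k hk k' hk' g g' h
    subst e1; subst e2; rfl
  have hs1 : Summable (fun q : κ × {k // k ∈ S} => ‖x (φ q.2 q.1)‖ ^ p.toReal) :=
    hx.comp_injective hinj
  have hle : ∀ g, ‖y g‖ ^ p.toReal ≤
      (S.card : ℝ)⁻¹ * ∑' k : {k // k ∈ S}, ‖x (φ k g)‖ ^ p.toReal := by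
    intro g
    rw [tsum_fintype, Finset.sum_coe_sort S (fun k => ‖x (φ k g)‖ ^ p.toReal), Finset.mul_sum]
    have h1 : ‖y g‖ ≤ ∑ k ∈ S, (S.card : ℝ)⁻¹ * ‖x (φ k g)‖ := by
      rw [hy, ← Finset.mul_sum, norm_mul, norm_inv]
      have : ‖(S.card : ℂ)‖ = (S.card : ℝ) := by simp
      rw [this]
      exact mul_le_mul_of_nonneg_left (norm_sum_le _ _) (by positivity)
    have h2 := Real.rpow_arith_mean_le_arith_mean_rpow S (fun _ => (S.card : ℝ)⁻¹)
      (fun k => ‖x (φ k g)‖) (fun _ _ => by positivity)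
      (by rw [Finset.sum_const, nsmul_eq_mul]; exact mul_inv_cancel₀ hc0.ne')
      (fun _ _ => norm_nonneg _) hp1
    exact le_trans (Real.rpow_le_rpow (norm_nonneg _) h1 hp0.le) h2
  have hs2 : Summable (fun g => (S.card : ℝ)⁻¹ * ∑' k : {k // k ∈ S}, ‖x (φ k g)‖ ^ p.toReal) :=
    hs1.prod.mul_left _
  have hs3 : Summable (fun g => ‖y g‖ ^ p.toReal) :=
    Summable.of_nonneg_of_le (fun _ => by positivity) hle hs2
  refine le_trans (Summable.tsum_le_tsum hle hs3 hs2) ?_
  rw [tsum_mul_left]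
  refine mul_le_mul_of_nonneg_left ?_ (by positivity)
  rw [← hs1.tsum_prod]
  exact tsum_comp_le_tsum_of_inj hx (fun _ => by positivity) hinj

end Avg

section Free

open FreeGroup

variable {ι : Type*} [DecidableEq ι]

/-- a child of `g` of letter `k` -/
def phi (k : ι) (g : FreeGroup ι) : FreeGroup ι :=
  if lastL g = some (k, false) then g * (FreeGroup.of k)⁻¹ else g * FreeGroup.of k

/-- the edge from `g` to the child -/
def edg (k : ι) (g : FreeGroup ι) : FreeGroup ι :=
  if lastL g = some (k, false) then g else g * FreeGroup.of k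

/-- its orientation -/
noncomputable def sgn (k : ι) (g : FreeGroup ι) : ℂ :=
  if lastL g = some (k, false) then 1 else -1

lemma norm_sgn (k : ι) (g : FreeGroup ι) : ‖sgn k g‖ ≤ 1 := by
  unfold sgn; split_ifs <;> simp

lemma phi_inj (k k' : ι) (g g' : FreeGroup ι) (h : phi k g = phi k' g') : k = k' ∧ g = g' := by
  unfold phi at h
  by_cases c1 : lastL g = some (k, false) <;> by_cases c2 : lastL g' = some (k', false)
  · rw [if_pos c1, if_pos c2] at h
    have e := congrArg lastL h
    rw [lastL_mul_of_inv c1, lastL_mul_of_inv c2] at e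
    simp only [Option.some.injEq, Prod.mk.injEq, and_true] at e
    subst e
    exact ⟨rfl, mul_right_cancel h⟩
  · rw [if_pos c1, if_neg c2] at h
    have e := congrArg lastL h
    rw [lastL_mul_of_inv c1, lastL_mul_of c2] at e
    simp at e
  · rw [if_neg c1, if_pos c2] at h
    have e := congrArg lastL h
    rw [lastL_mul_of c1, lastL_mul_of_inv c2] at e
    simp at e
  · rw [if_neg c1, if_neg c2] at h
    have e := congrArg lastL h
    rw [lastL_mul_of c1, lastL_mul_of c2] at e
    simp only [Option.some.injEq, Prod.mk.injEq, and_true] at e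
    subst e
    exact ⟨rfl, mul_right_cancel h⟩

lemma edg_inj (k : ι) : Function.Injective (edg k : FreeGroup ι → FreeGroup ι) := by
  intro g g' h
  unfold edg at h
  by_cases c1 : lastL g = some (k, false) <;> by_cases c2 : lastL g' = some (k, false)
  · rwa [if_pos c1, if_pos c2] at h
  · rw [if_pos c1, if_neg c2] at h
    rw [h, lastL_mul_of c2] at c1
    simp at c1
  · rw [if_neg c1, if_pos c2] at h
    rw [← h, lastL_mul_of c1] at c2
    simp at c2
  · rw [if_neg c1, if_neg c2] at h
    exact mul_right_cancel h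

/-- difference along an edge -/
lemma child_identity (k : ι) (f : FreeGroup ι → ℂ) (g : FreeGroup ι) :
    f g = f (phi k g) + sgn k g * (f (edg k g) - f (edg k g * (FreeGroup.of k)⁻¹)) := by
  unfold phi edg sgn
  split_ifs with h
  · ring
  · rw [mul_inv_cancel_right]; ring

end Free

end Pool.Agent.H14.NS
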