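import Pool.Agent.H14.NS.Base

/-!
# Convolution of summable functions
-/

set_option autoImplicit false

open scoped ENNReal NNReal

namespace Pool.Agent.H14.NS

variable {G : Type*} [Group G]

/-- convolution -/
noncomputable def conv (b c : G → ℂ) (x : G) : ℂ := ∑' y, b y * c (y⁻¹ * x)

lemma summable_prod_aux {b c : G → ℂ} (hb : Summable (fun h => ‖b h‖))
    (hc : Summable (fun h => ‖c h‖)) {f : G → ℂ} {M : ℝ} (hf : ∀ x, ‖f x‖ ≤ M) :
    Summable (fun q : G × G => b q.1 * c q.2 * f (q.1 * q.2)) := by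
  have h1 : Summable (fun q : G × G => ‖b q.1‖ * ‖c q.2‖) := hb.mul_of_nonneg hc
    (fun _ => norm_nonneg _) (fun _ => norm_nonneg _)
  refine Summable.of_norm_bounded (h1.mul_right M) fun q => ?_
  rw [norm_mul, norm_mul]
  exact mul_le_mul_of_nonneg_left (hf _) (by positivity)

/-- the shear `(w, z) ↦ (z, z⁻¹ w)` -/
def shear : G × G ≃ G × G where
  toFun q := (q.2, q.2⁻¹ * q.1)
  invFun q := (q.1 * q.2, q.1)
  left_inv q := by simp
  right_inv q := by simp

lemma conv_hasSum {b c : G → ℂ} (hb : Summable (fun h => ‖b h‖))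
    (hc : Summable (fun h => ‖c h‖)) {f : G → ℂ} {M : ℝ} (hf : ∀ x, ‖f x‖ ≤ M) :
    HasSum (fun w => conv b c w * f w) (∑' h, c h * ∑' z, b z * f (z * h)) := by
  have h1 := summable_prod_aux hb hc hf
  have h2 : HasSum (fun q : G × G => b q.2 * c (q.2⁻¹ * q.1) * f q.1)
      (∑' q : G × G, b q.1 * c q.2 * f (q.1 * q.2)) := by
    have := (Equiv.hasSum_iff (shear (G := G))).2 h1.hasSum
    refine this.congr_fun ?_
    rintro ⟨w, z⟩
    show b z * c (z⁻¹ * w) * f w = b z * c (z⁻¹ * w) * f (z * (z⁻¹ * w))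
    rw [mul_inv_cancel_left]
  have h3 : HasSum (fun w : G => ∑' z : G, b z * c (z⁻¹ * w) * f w)
      (∑' q : G × G, b q.1 * c q.2 * f (q.1 * q.2)) :=
    h2.prod_fiberwise fun w => (h2.summable.prod_factor w).hasSum
  have h4 : (∑' q : G × G, b q.1 * c q.2 * f (q.1 * q.2)) =
      ∑' h, c h * ∑' z, b z * f (z * h) := by
    have h5 : HasSum (fun q : G × G => b q.2 * c q.1 * f (q.2 * q.1))
        (∑' q : G × G, b q.1 * c q.2 * f (q.1 * q.2)) :=
      (Equiv.hasSum_iff (Equiv.prodComm G G)).2 h1.hasSum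
    have h6 := h5.prod_fiberwise fun w => (h5.summable.prod_factor w).hasSum
    rw [← h6.tsum_eq]
    refine tsum_congr fun h => ?_
    rw [← tsum_mul_left]
    refine tsum_congr fun z => ?_
    ring
  rw [← h4]
  refine h3.congr_fun fun w => ?_
  unfold conv
  rw [tsum_mul_right]

lemma summable_conv' {b c : G → ℂ} (hb : Summable (fun h => ‖b h‖))
    (hc : Summable (fun h => ‖c h‖)) : Summable (fun w => ‖conv b c w‖) := by
  have h1 : Summable (fun q : G × G => ‖b q.1‖ * ‖c q.2‖) := hb.mul_of_nonneg hc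
    (fun _ => norm_nonneg _) (fun _ => norm_nonneg _)
  have h2 : Summable (fun q : G × G => ‖b q.2 * c (q.2⁻¹ * q.1)‖) := by
    have := (Equiv.summable_iff (shear (G := G))).2 h1
    refine this.congr ?_
    rintro ⟨w, z⟩
    show ‖b z‖ * ‖c (z⁻¹ * w)‖ = ‖b z * c (z⁻¹ * w)‖
    rw [norm_mul]
  have h3 : Summable (fun w : G => ∑' z : G, ‖b z * c (z⁻¹ * w)‖) := h2.prod
  refine Summable.of_nonneg_of_le (fun _ => norm_nonneg _) (fun w => ?_) h3
  exact norm_tsum_le_tsum_norm (h2.prod_factor w)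

lemma conv_sum {b c : G → ℂ} (hb : Summable (fun h => ‖b h‖))
    (hc : Summable (fun h => ‖c h‖)) : ∑' w, conv b c w = (∑' z, b z) * ∑' h, c h := by
  have := conv_hasSum hb hc (f := fun _ => 1) (M := 1) (by simp)
  simp only [mul_one] at this
  rw [this.tsum_eq, tsum_mul_right, mul_comm]

section

variable {p : ℝ≥0∞} [Fact (1 ≤ p)]

/-- right convolution with a product -/
lemma convR_conv (hp' : p ≠ ∞) {b c : G → ℂ} (hb : Summable (fun h => ‖b h‖))
    (hc : Summable (fun h => ‖c h‖)) (x : L p G) :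
    convR p hp' (conv b c) x = convR p hp' c (convR p hp' b x) := by
  have hp0 : p ≠ 0 := by
    intro h
    have := (Fact.out : (1 : ℝ≥0∞) ≤ p)
    rw [h] at this
    exact absurd this (by simp)
  ext y
  rw [← (convR_apply hp' (summable_conv' hb hc) x y).tsum_eq,
    ← (convR_apply hp' hc (convR p hp' b x) y).tsum_eq]
  have h1 := conv_hasSum hb hc (f := fun w => x (y * w⁻¹)) (M := ‖x‖)
    (fun w => lp.norm_apply_le_norm hp0 x _)
  rw [h1.tsum_eq]
  refine tsum_congr fun h => ?_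
  rw [← (convR_apply hp' hb x (y * h⁻¹)).tsum_eq]
  congr 1
  refine tsum_congr fun z => ?_
  rw [mul_inv_rev, mul_assoc]

/-- `convR` of `x` with values as a convolution -/
lemma convR_eq_conv (hp' : p ≠ ∞) {c : G → ℂ} (hc : Summable (fun h => ‖c h‖)) (x : L p G)
    (y : G) : convR p hp' c x y = conv x c y := by
  rw [← (convR_apply hp' hc x y).tsum_eq]
  unfold conv
  let e : G ≃ G :=
    { toFun := fun z => z⁻¹ * y
      invFun := fun h => y * h⁻¹
      left_inv := fun z => by simp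
      right_inv := fun h => by simp }
  rw [← e.tsum_eq]
  refine tsum_congr fun z => ?_
  show c (z⁻¹ * y) * x (y * (z⁻¹ * y)⁻¹) = x z * c (z⁻¹ * y)
  rw [mul_comm]
  congr 2
  group

end

end Pool.Agent.H14.NS
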