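import Pool.Agent.H14.NS.Flow

/-!
# Truncated flows
-/

set_option autoImplicit false

open scoped ENNReal NNReal

namespace Pool.Agent.H14.NS

variable {ι : Type*} [DecidableEq ι]

/-- square sum of the tails -/
noncomputable def sqt (b : FreeGroup ι → ℂ) (n : ℕ) : ℝ := ∑ l ∈ Finset.range n, tl b l ^ 2

lemma sqt_nonneg (b : FreeGroup ι → ℂ) (n : ℕ) : 0 ≤ sqt b n :=
  Finset.sum_nonneg fun _ _ => by positivity

lemma window {f : ℕ → ℝ} (hf : ∀ l l', l ≤ l' → f l' ≤ f l) (A n : ℕ) :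
    ∑ l ∈ Finset.Ico A (A + 2 * n), f l ≤ 2 * ∑ l ∈ Finset.range n, f l := by
  rw [Finset.sum_Ico_eq_sum_range, Nat.add_sub_cancel_left]
  have h1 : ∑ j ∈ Finset.range (2 * n), f (A + j) ≤ ∑ j ∈ Finset.range (2 * n), f j :=
    Finset.sum_le_sum fun j _ => hf _ _ (Nat.le_add_left _ _)
  have h2 : ∑ j ∈ Finset.range (2 * n), f j =
      ∑ j ∈ Finset.range n, f j + ∑ j ∈ Finset.range n, f (n + j) := by
    rw [two_mul, Finset.sum_range_add]
  have h3 : ∑ j ∈ Finset.range n, f (n + j) ≤ ∑ j ∈ Finset.range n, f j :=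
    Finset.sum_le_sum fun j _ => hf _ _ (Nat.le_add_left _ _)
  linarith

lemma window_tl {b : FreeGroup ι → ℂ} (hb : Summable (fun h => ‖b h‖)) (A n : ℕ) :
    ∑ l ∈ Finset.Ico A (A + 2 * n), tl b l ^ 2 ≤ 2 * sqt b n := by
  refine window (fun l l' h => ?_) A n
  exact pow_le_pow_left₀ (tl_nonneg _ _) (tl_anti hb h) 2

/-- square summable vector from a function dominated by the flow -/
lemma ell2 {b : FreeGroup ι → ℂ} (hb : Summable (fun h => ‖b h‖)) (hb0 : ∑' g, b g = 0) (k : ι)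
    {ρ : ℝ} (hρ : 0 ≤ ρ) (W : Finset ℕ) (q : FreeGroup ι → ℂ) (hq : ∀ x, ‖q x‖ ≤ ρ * ‖D k b x‖)
    (hW : ∀ x, q x ≠ 0 → FreeGroup.norm x ∈ W) :
    ∃ v : L 2 (FreeGroup ι), (∀ x, v x = q x) ∧ ‖v‖ ≤ ρ * √(∑ l ∈ W, tl b l ^ 2) := by
  have h1 := sq_sum hb hb0 k hρ W q hq hW
  have hmem : Memℓp q 2 := by
    refine memℓp_gen' (C := ρ ^ 2 * ∑ l ∈ W, tl b l ^ 2) fun s => ?_
    rw [ENNReal.toReal_ofNat]
    have := h1 s
    simpa using this
  refine ⟨⟨q, hmem⟩, fun x => rfl, ?_⟩
  refine lp.norm_le_of_forall_sum_le (by norm_num) (by positivity) fun s => ?_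
  rw [ENNReal.toReal_ofNat]
  have h2 := h1 s
  have h3 : (ρ * √(∑ l ∈ W, tl b l ^ 2)) ^ (2 : ℝ) = ρ ^ 2 * ∑ l ∈ W, tl b l ^ 2 := by
    rw [Real.rpow_ofNat, mul_pow, Real.sq_sqrt (Finset.sum_nonneg fun _ _ => by positivity)]
  rw [h3]
  simpa using h2

/-- linear cut-off -/
noncomputable def kap (n : ℕ) (x : FreeGroup ι) : ℝ := max 0 (1 - (FreeGroup.norm x : ℝ) / n)

lemma kap_nonneg (n : ℕ) (x : FreeGroup ι) : 0 ≤ kap n x := le_max_left _ _

lemma kap_le_one (n : ℕ) (x : FreeGroup ι) : kap n x ≤ 1 := by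
  unfold kap
  apply max_le zero_le_one
  have : 0 ≤ (FreeGroup.norm x : ℝ) / n := by positivity
  linarith

lemma kap_ne_zero {n : ℕ} (hn : 1 ≤ n) {x : FreeGroup ι} (h : kap n x ≠ 0) :
    FreeGroup.norm x < n := by
  by_contra h1
  push Not at h1
  apply h
  unfold kap
  apply max_eq_left
  have hn0 : (0 : ℝ) < n := by exact_mod_cast hn
  have : 1 ≤ (FreeGroup.norm x : ℝ) / n := by
    rw [le_div_iff₀ hn0, one_mul]
    exact_mod_cast h1
  linarith

lemma kap_one {n : ℕ} : kap n (1 : FreeGroup ι) = 1 := by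
  unfold kap
  simp

lemma norm_mul_ge (y h : FreeGroup ι) :
    FreeGroup.norm y ≤ FreeGroup.norm (y * h) + FreeGroup.norm h := by
  have := FreeGroup.norm_mul_le (y * h) h⁻¹
  rw [mul_inv_cancel_right, FreeGroup.norm_inv_eq] at this
  exact this

lemma norm_mul_ge' (y h : FreeGroup ι) :
    FreeGroup.norm h ≤ FreeGroup.norm (y * h) + FreeGroup.norm y := by
  have := FreeGroup.norm_mul_le y⁻¹ (y * h)
  rw [inv_mul_cancel_left, FreeGroup.norm_inv_eq] at this
  omega

lemma kap_lip {n : ℕ} (hn : 1 ≤ n) (y h : FreeGroup ι) :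
    |kap n y - kap n (y * h)| ≤ (FreeGroup.norm h : ℝ) / n := by
  have hn0 : (0 : ℝ) < n := by exact_mod_cast hn
  unfold kap
  rw [max_comm (0 : ℝ) (1 - (FreeGroup.norm y : ℝ) / n),
    max_comm (0 : ℝ) (1 - (FreeGroup.norm (y * h) : ℝ) / n)]
  refine (abs_max_sub_max_le_abs _ _ (0 : ℝ)).trans ?_
  have h1 : (1 - (FreeGroup.norm y : ℝ) / n) - (1 - (FreeGroup.norm (y * h) : ℝ) / n) =
      ((FreeGroup.norm (y * h) : ℝ) - FreeGroup.norm y) / n := by ring
  rw [h1, abs_div, abs_of_pos hn0]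
  refine div_le_div_of_nonneg_right ?_ hn0.le
  have h2 : (FreeGroup.norm (y * h) : ℝ) ≤ FreeGroup.norm y + FreeGroup.norm h := by
    exact_mod_cast FreeGroup.norm_mul_le y h
  have h3 : (FreeGroup.norm y : ℝ) ≤ FreeGroup.norm (y * h) + FreeGroup.norm h := by
    exact_mod_cast norm_mul_ge y h
  rw [abs_le]
  constructor <;> linarith

/-- the commutator of the cut-off and a translation -/
lemma comm_vec {b : FreeGroup ι → ℂ} (hb : Summable (fun h => ‖b h‖)) (hb0 : ∑' g, b g = 0)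
    (k : ι) {n : ℕ} (hn : 1 ≤ n) (h : FreeGroup ι) :
    ∃ v : L 2 (FreeGroup ι), (∀ y, v y = D k b y * ((kap n y - kap n (y * h) : ℝ) : ℂ)) ∧
      ‖v‖ ≤ 3 * √(sqt b n) * min 1 ((FreeGroup.norm h : ℝ) / n) := by
  have hn0 : (0 : ℝ) < n := by exact_mod_cast hn
  have hP := sqt_nonneg b n
  have hsq2 : √(2 * sqt b n) ≤ 2 * √(sqt b n) := by
    rw [Real.sqrt_le_left (by positivity), mul_pow, Real.sq_sqrt hP]
    linarith
  rcases le_or_gt (FreeGroup.norm h) n with hh | hh
  · -- short translations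
    obtain ⟨v, hv, hvn⟩ := ell2 hb hb0 k (ρ := (FreeGroup.norm h : ℝ) / n) (by positivity)
      (Finset.Ico 0 (0 + 2 * n)) (fun y => D k b y * ((kap n y - kap n (y * h) : ℝ) : ℂ))
      (fun y => by
        rw [norm_mul, mul_comm, Complex.norm_real, Real.norm_eq_abs]
        exact mul_le_mul_of_nonneg_right (kap_lip hn y h) (norm_nonneg _))
      (fun y hy => by
        have h1 : kap n y ≠ 0 ∨ kap n (y * h) ≠ 0 := by
          by_contra hc
          push Not at hc
          apply hy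
          simp [hc.1, hc.2]
        rw [Finset.mem_Ico]
        refine ⟨Nat.zero_le _, ?_⟩
        rcases h1 with h1 | h1
        · have := kap_ne_zero hn h1
          omega
        · have h2 := kap_ne_zero hn h1
          have h3 := norm_mul_ge y h
          omega)
    refine ⟨v, hv, hvn.trans ?_⟩
    have h1 : (FreeGroup.norm h : ℝ) / n ≤ 1 := by
      rw [div_le_one hn0]; exact_mod_cast hh
    rw [min_eq_right h1]
    have h2 : √(∑ l ∈ Finset.Ico 0 (0 + 2 * n), tl b l ^ 2) ≤ 3 * √(sqt b n) := by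
      refine (Real.sqrt_le_sqrt (window_tl hb 0 n)).trans (hsq2.trans ?_)
      have := Real.sqrt_nonneg (sqt b n)
      linarith
    calc (FreeGroup.norm h : ℝ) / n * √(∑ l ∈ Finset.Ico 0 (0 + 2 * n), tl b l ^ 2)
        ≤ (FreeGroup.norm h : ℝ) / n * (3 * √(sqt b n)) :=
          mul_le_mul_of_nonneg_left h2 (by positivity)
      _ = 3 * √(sqt b n) * ((FreeGroup.norm h : ℝ) / n) := by ring
  · -- long translations
    obtain ⟨v1, hv1, hvn1⟩ := ell2 hb hb0 k (ρ := 1) zero_le_one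
      (Finset.range n) (fun y => D k b y * ((kap n y : ℝ) : ℂ))
      (fun y => by
        rw [norm_mul, one_mul, Complex.norm_real, Real.norm_of_nonneg (kap_nonneg _ _)]
        exact mul_le_of_le_one_right (norm_nonneg _) (kap_le_one _ _))
      (fun y hy => by
        rw [Finset.mem_range]
        apply kap_ne_zero hn
        intro hc
        apply hy
        simp [hc])
    obtain ⟨v2, hv2, hvn2⟩ := ell2 hb hb0 k (ρ := 1) zero_le_one
      (Finset.Ico (FreeGroup.norm h - n) (FreeGroup.norm h - n + 2 * n))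
      (fun y => D k b y * ((kap n (y * h) : ℝ) : ℂ))
      (fun y => by
        rw [norm_mul, one_mul, Complex.norm_real, Real.norm_of_nonneg (kap_nonneg _ _)]
        exact mul_le_of_le_one_right (norm_nonneg _) (kap_le_one _ _))
      (fun y hy => by
        have h1 : FreeGroup.norm (y * h) < n := by
          apply kap_ne_zero hn
          intro hc
          apply hy
          simp [hc]
        have h2 := norm_mul_ge y h
        have h3 := norm_mul_ge' y h
        rw [Finset.mem_Ico]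
        constructor <;> omega)
    refine ⟨v1 - v2, fun y => ?_, ?_⟩
    · rw [lp.coeFn_sub, Pi.sub_apply, hv1, hv2]
      push_cast
      ring
    · refine (norm_sub_le _ _).trans ?_
      have h1 : 1 ≤ (FreeGroup.norm h : ℝ) / n := by
        rw [le_div_iff₀ hn0, one_mul]; exact_mod_cast hh.le
      rw [min_eq_left h1, mul_one]
      have h2 : ‖v2‖ ≤ 2 * √(sqt b n) := by
        refine hvn2.trans ?_
        rw [one_mul]
        exact (Real.sqrt_le_sqrt (window_tl hb _ n)).trans hsq2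
      have h3 : ‖v1‖ ≤ √(sqt b n) := by
        refine hvn1.trans ?_
        rw [one_mul]; rfl
      linarith

lemma trunc_vec {b : FreeGroup ι → ℂ} (hb : Summable (fun h => ‖b h‖)) (hb0 : ∑' g, b g = 0)
    (k : ι) {n : ℕ} (hn : 1 ≤ n) :
    ∃ v : L 2 (FreeGroup ι), ∀ y, v y = D k b y * ((kap n y : ℝ) : ℂ) := by
  obtain ⟨v1, hv1, hvn1⟩ := ell2 hb hb0 k (ρ := 1) zero_le_one
    (Finset.range n) (fun y => D k b y * ((kap n y : ℝ) : ℂ))
    (fun y => by
      rw [norm_mul, one_mul, Complex.norm_real, Real.norm_of_nonneg (kap_nonneg _ _)]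
      exact mul_le_of_le_one_right (norm_nonneg _) (kap_le_one _ _))
    (fun y hy => by
      rw [Finset.mem_range]
      apply kap_ne_zero hn
      intro hc
      apply hy
      simp [hc])
  exact ⟨v1, hv1⟩

/-- average of the tails of the right factor -/
lemma min_sum {c : FreeGroup ι → ℂ} (hc : Summable (fun h => ‖c h‖)) {n : ℕ} (hn : 1 ≤ n) :
    Summable (fun h => ‖c h‖ * min 1 ((FreeGroup.norm h : ℝ) / n)) ∧
    ∑' h, ‖c h‖ * min 1 ((FreeGroup.norm h : ℝ) / n) ≤
      (∑ l ∈ Finset.range n, tl c l) / n := by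
  have hn0 : (0 : ℝ) < n := by exact_mod_cast hn
  have hs : Summable (fun h => ‖c h‖ * min 1 ((FreeGroup.norm h : ℝ) / n)) := by
    refine Summable.of_nonneg_of_le (fun h => by positivity) (fun h => ?_) hc
    exact mul_le_of_le_one_right (norm_nonneg _) (min_le_left _ _)
  refine ⟨hs, ?_⟩
  rw [le_div_iff₀ hn0, ← tsum_mul_right]
  have h2 : HasSum (fun h => ∑ l ∈ Finset.range n, if l ≤ FreeGroup.norm h then ‖c h‖ else 0)
      (∑ l ∈ Finset.range n, tl c l) := hasSum_sum fun l _ => (tl_summable hc l).hasSum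
  rw [← h2.tsum_eq]
  refine Summable.tsum_le_tsum (fun h => ?_) (hs.mul_right _) h2.summable
  have h3 : (∑ l ∈ Finset.range n, if l ≤ FreeGroup.norm h then ‖c h‖ else 0) =
      ((Finset.range n).filter (fun l => l ≤ FreeGroup.norm h)).card * ‖c h‖ := by
    rw [← Finset.sum_filter, Finset.sum_const, nsmul_eq_mul]
  rw [h3, mul_assoc, mul_comm]
  refine mul_le_mul_of_nonneg_right ?_ (norm_nonneg _)
  have h4 : min n (FreeGroup.norm h) ≤
      ((Finset.range n).filter (fun l => l ≤ FreeGroup.norm h)).card := by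
    have h5 : Finset.range (min n (FreeGroup.norm h)) ⊆
        (Finset.range n).filter (fun l => l ≤ FreeGroup.norm h) := by
      intro l hl
      rw [Finset.mem_range] at hl
      rw [Finset.mem_filter, Finset.mem_range]
      omega
    have := Finset.card_le_card h5
    rwa [Finset.card_range] at this
  have h5 : min 1 ((FreeGroup.norm h : ℝ) / n) * n = ((min n (FreeGroup.norm h) : ℕ) : ℝ) := by
    rw [min_mul_of_nonneg _ _ hn0.le, one_mul, div_mul_cancel₀ _ hn0.ne', Nat.cast_min]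
  rw [h5]
  exact_mod_cast h4

end Pool.Agent.H14.NS
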