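import Pool.Agent.H14.NS.Single

/-!
# Flows through the edges of the left Cayley tree
-/

set_option autoImplicit false

open scoped ENNReal NNReal

namespace Pool.Agent.H14.NS

variable {ι : Type*} [DecidableEq ι]

/-- flow of `b` through the edges of the generator `k` -/
noncomputable def D (k : ι) (b : FreeGroup ι → ℂ) (x : FreeGroup ι) : ℂ :=
  - ∑' g, b g * chi k (g * x⁻¹)

/-- tail of `b` -/
noncomputable def tl (b : FreeGroup ι → ℂ) (l : ℕ) : ℝ :=
  ∑' g, if l ≤ FreeGroup.norm g then ‖b g‖ else 0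

section

variable {b c : FreeGroup ι → ℂ}

lemma D_summable (hb : Summable (fun h => ‖b h‖)) (k : ι) (x : FreeGroup ι) :
    Summable (fun g => b g * chi k (g * x⁻¹)) := by
  refine Summable.of_norm_bounded hb fun g => ?_
  rw [norm_mul]
  exact mul_le_of_le_one_right (norm_nonneg _) (chi_norm_le _ _)

lemma D_bound (hb : Summable (fun h => ‖b h‖)) (k : ι) (x : FreeGroup ι) :
    ‖D k b x‖ ≤ ∑' g, ‖b g‖ := by
  unfold D
  rw [norm_neg]
  refine tsum_of_norm_bounded hb.hasSum fun g => ?_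
  rw [norm_mul]
  exact mul_le_of_le_one_right (norm_nonneg _) (chi_norm_le _ _)

lemma D_delt (k j : ι) (x : FreeGroup ι) :
    D k (delt (FreeGroup.of j)) x = if x = 1 ∧ j = k then 1 else 0 := by
  unfold D
  rw [(delt_hasSum (FreeGroup.of j) (fun g => chi k (g * x⁻¹))).tsum_eq]
  have h := chi_of_mul k j x⁻¹
  rw [one_mul, neg_sub, h]
  simp only [inv_eq_one]

lemma D_conv (hb : Summable (fun h => ‖b h‖)) (hc : Summable (fun h => ‖c h‖)) (k : ι)
    (x : FreeGroup ι) : D k (conv b c) x = ∑' h, c h * D k b (x * h⁻¹) := by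
  unfold D
  rw [(conv_hasSum hb hc (f := fun w => chi k (w * x⁻¹)) (M := 1)
    (fun w => chi_norm_le _ _)).tsum_eq, ← tsum_neg]
  refine tsum_congr fun h => ?_
  rw [mul_neg]
  congr 2
  refine tsum_congr fun z => ?_
  congr 2
  rw [mul_inv_rev, inv_inv, mul_assoc]

lemma D_sum {α : Type*} (s : Finset α) (f : α → FreeGroup ι → ℂ)
    (hf : ∀ i ∈ s, Summable (fun h => ‖f i h‖)) (k : ι) (x : FreeGroup ι) :
    D k (fun g => ∑ i ∈ s, f i g) x = ∑ i ∈ s, D k (f i) x := by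
  unfold D
  rw [Finset.sum_neg_distrib]
  congr 1
  have h1 : HasSum (fun g => ∑ i ∈ s, f i g * chi k (g * x⁻¹))
      (∑ i ∈ s, ∑' g, f i g * chi k (g * x⁻¹)) :=
    hasSum_sum fun i hi => (D_summable (hf i hi) k x).hasSum
  rw [← h1.tsum_eq]
  refine tsum_congr fun g => ?_
  rw [Finset.sum_mul]

lemma tl_summable (hb : Summable (fun h => ‖b h‖)) (l : ℕ) :
    Summable (fun g => if l ≤ FreeGroup.norm g then ‖b g‖ else 0) := by
  refine Summable.of_nonneg_of_le (fun g => ?_) (fun g => ?_) hb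
  · split_ifs
    · exact norm_nonneg _
    · exact le_rfl
  · split_ifs
    · exact le_rfl
    · exact norm_nonneg _

lemma tl_nonneg (b : FreeGroup ι → ℂ) (l : ℕ) : 0 ≤ tl b l := by
  unfold tl
  refine tsum_nonneg fun g => ?_
  split_ifs
  · exact norm_nonneg _
  · exact le_rfl

lemma tl_anti (hb : Summable (fun h => ‖b h‖)) {l l' : ℕ} (h : l ≤ l') : tl b l' ≤ tl b l := by
  unfold tl
  refine Summable.tsum_le_tsum (fun g => ?_) (tl_summable hb l') (tl_summable hb l)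
  by_cases h1 : l' ≤ FreeGroup.norm g
  · rw [if_pos h1, if_pos (h.trans h1)]
  · rw [if_neg h1]
    split_ifs
    · exact norm_nonneg _
    · exact le_rfl

/-- the flow through a level is at most the tail -/
lemma level_sum (hb : Summable (fun h => ‖b h‖)) (hb0 : ∑' g, b g = 0) (k : ι) (l : ℕ)
    (F : Finset (FreeGroup ι)) (hF : ∀ x ∈ F, FreeGroup.norm x = l) :
    ∑ x ∈ F, ‖D k b x‖ ≤ tl b l := by
  have hD : ∀ x, D k b x = - ∑' g, b g * (chi k (g * x⁻¹) - chi k x⁻¹) := by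
    intro x
    unfold D
    have h1 : HasSum (fun g => b g * (chi k (g * x⁻¹) - chi k x⁻¹))
        (∑' g, b g * chi k (g * x⁻¹) - (∑' g, b g) * chi k x⁻¹) := by
      refine ((D_summable hb k x).hasSum.sub
        ((Summable.of_norm hb).hasSum.mul_right (chi k x⁻¹))).congr_fun fun g => ?_
      ring
    rw [h1.tsum_eq, hb0]
    ring
  have hs : ∀ x, Summable (fun g => ‖b g‖ * ‖chi k (g * x⁻¹) - chi k x⁻¹‖) := by
    intro x
    refine Summable.of_nonneg_of_le (fun _ => by positivity) (fun g => ?_) (hb.mul_right 2)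
    refine mul_le_mul_of_nonneg_left ?_ (norm_nonneg _)
    exact (norm_sub_le _ _).trans (by linarith [chi_norm_le k (g * x⁻¹), chi_norm_le k x⁻¹])
  have hle : ∀ x, ‖D k b x‖ ≤ ∑' g, ‖b g‖ * ‖chi k (g * x⁻¹) - chi k x⁻¹‖ := by
    intro x
    rw [hD, norm_neg]
    refine tsum_of_norm_bounded (hs x).hasSum fun g => ?_
    rw [norm_mul]
  refine (Finset.sum_le_sum fun x _ => hle x).trans ?_
  have h2 : HasSum (fun g => ∑ x ∈ F, ‖b g‖ * ‖chi k (g * x⁻¹) - chi k x⁻¹‖)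
      (∑ x ∈ F, ∑' g, ‖b g‖ * ‖chi k (g * x⁻¹) - chi k x⁻¹‖) :=
    hasSum_sum fun x _ => (hs x).hasSum
  rw [← h2.tsum_eq]
  unfold tl
  refine Summable.tsum_le_tsum (fun g => ?_) h2.summable (tl_summable hb l)
  rw [← Finset.mul_sum]
  -- at most one `x`
  by_cases hex : ∃ x ∈ F, chi k (g * x⁻¹) ≠ chi k x⁻¹
  · obtain ⟨x0, hx0, hne⟩ := hex
    have h3 : ∑ x ∈ F, ‖chi k (g * x⁻¹) - chi k x⁻¹‖ = ‖chi k (g * x0⁻¹) - chi k x0⁻¹‖ := by
      refine Finset.sum_eq_single_of_mem x0 hx0 fun x hx hxx => ?_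
      by_contra h4
      apply hxx
      have h5 : chi k (g * x⁻¹) ≠ chi k x⁻¹ := by
        intro h6; apply h4; rw [h6]; simp
      have h7 := chi_mul_unique k g x⁻¹ x0⁻¹ h5 hne (by
        rw [FreeGroup.norm_inv_eq, FreeGroup.norm_inv_eq, hF x hx, hF x0 hx0])
      exact inv_injective h7
    have h8 : l ≤ FreeGroup.norm g := by
      have := chi_mul_norm k g x0⁻¹ hne
      rwa [FreeGroup.norm_inv_eq, hF x0 hx0] at this
    rw [h3, if_pos h8]
    refine mul_le_of_le_one_right (norm_nonneg _) ?_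
    unfold chi
    split_ifs <;> simp
  · push Not at hex
    have h3 : ∑ x ∈ F, ‖chi k (g * x⁻¹) - chi k x⁻¹‖ = 0 := by
      refine Finset.sum_eq_zero fun x hx => ?_
      rw [hex x hx]; simp
    rw [h3, mul_zero]
    split_ifs
    · exact norm_nonneg _
    · exact le_rfl

/-- square sums of the flow over finitely many levels -/
lemma sq_sum (hb : Summable (fun h => ‖b h‖)) (hb0 : ∑' g, b g = 0) (k : ι) {ρ : ℝ} (hρ : 0 ≤ ρ)
    (W : Finset ℕ) (q : FreeGroup ι → ℂ) (hq : ∀ x, ‖q x‖ ≤ ρ * ‖D k b x‖)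
    (hW : ∀ x, q x ≠ 0 → FreeGroup.norm x ∈ W) (F : Finset (FreeGroup ι)) :
    ∑ x ∈ F, ‖q x‖ ^ 2 ≤ ρ ^ 2 * ∑ l ∈ W, tl b l ^ 2 := by
  classical
  have h1 : ∑ x ∈ F, ‖q x‖ ^ 2 = ∑ x ∈ F with FreeGroup.norm x ∈ W, ‖q x‖ ^ 2 := by
    symm
    refine Finset.sum_subset (Finset.filter_subset _ _) fun x hx hx' => ?_
    have : q x = 0 := by
      by_contra h
      exact hx' (Finset.mem_filter.2 ⟨hx, hW x h⟩)
    rw [this]; simp
  rw [h1, ← Finset.sum_fiberwise_of_maps_to (t := W) (g := fun x => FreeGroup.norm x)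
    (fun x hx => (Finset.mem_filter.1 hx).2), Finset.mul_sum]
  refine Finset.sum_le_sum fun l _ => ?_
  set F' := (F.filter (fun x => FreeGroup.norm x ∈ W)).filter (fun x => FreeGroup.norm x = l)
    with hF'
  have h2 : ∑ x ∈ F', ‖q x‖ ^ 2 ≤ (∑ x ∈ F', ‖q x‖) ^ 2 :=
    Finset.sum_sq_le_sq_sum_of_nonneg fun _ _ => norm_nonneg _
  have h3 : ∑ x ∈ F', ‖q x‖ ≤ ρ * tl b l := by
    calc ∑ x ∈ F', ‖q x‖ ≤ ∑ x ∈ F', ρ * ‖D k b x‖ := Finset.sum_le_sum fun x _ => hq x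
      _ = ρ * ∑ x ∈ F', ‖D k b x‖ := by rw [Finset.mul_sum]
      _ ≤ ρ * tl b l := mul_le_mul_of_nonneg_left
          (level_sum hb hb0 k l F' (fun x hx => (Finset.mem_filter.1 hx).2)) hρ
  calc ∑ x ∈ F', ‖q x‖ ^ 2 ≤ (∑ x ∈ F', ‖q x‖) ^ 2 := h2
    _ ≤ (ρ * tl b l) ^ 2 :=
        pow_le_pow_left₀ (Finset.sum_nonneg fun _ _ => norm_nonneg _) h3 2
    _ = ρ ^ 2 * tl b l ^ 2 := by ring

end

end Pool.Agent.H14.NS
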