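import Pool.Agent.H14.NS.Trace

/-!
# Rank: an equivariant operator with dense range does not raise the dimension
-/

set_option autoImplicit false

open scoped ENNReal NNReal
open scoped Classical

namespace Pool.Agent.H14.NS

section Ext

variable {κ κ' : Type*}

/-- extension by zero along an injective map -/
noncomputable def extL (π : κ → κ') (hπ : Function.Injective π) : L 2 κ →L[ℂ] L 2 κ' :=
  ContinuousLinearMap.adjoint (compL 2 two_ne_top' π hπ)

lemma norm_extL_apply_le (π : κ → κ') (hπ : Function.Injective π) (x : L 2 κ) :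
    ‖extL π hπ x‖ ≤ ‖x‖ := by
  have h1 : ‖extL π hπ‖ ≤ 1 := by
    unfold extL
    rw [ContinuousLinearMap.adjoint.norm_map]
    exact norm_compL_le _ _ _
  simpa using (extL π hπ).le_of_opNorm_le h1 x

lemma extL_apply_eq (π : κ → κ') (hπ : Function.Injective π) (x : L 2 κ) (j : κ') :
    extL π hπ x j = inner ℂ (compL 2 two_ne_top' π hπ (lp.single 2 j (1 : ℂ))) x := by
  unfold extL
  rw [← ContinuousLinearMap.adjoint_inner_right, lp.inner_single_left]
  simp

lemma extL_apply (π : κ → κ') (hπ : Function.Injective π) (x : L 2 κ) (i : κ) :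
    extL π hπ x (π i) = x i := by
  rw [extL_apply_eq]
  have : compL 2 two_ne_top' π hπ (lp.single 2 (π i) (1 : ℂ)) = lp.single 2 i (1 : ℂ) := by
    ext j
    rw [compL_apply, lp.single_apply, lp.single_apply, Pi.single_apply, Pi.single_apply]
    by_cases h : j = i
    · rw [if_pos h, if_pos (by rw [h])]
    · rw [if_neg h, if_neg (fun h' => h (hπ h'))]
  rw [this, lp.inner_single_left]
  simp

lemma extL_apply_ne (π : κ → κ') (hπ : Function.Injective π) (x : L 2 κ) (j : κ')
    (hj : ∀ i, π i ≠ j) : extL π hπ x j = 0 := by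
  rw [extL_apply_eq]
  have : compL 2 two_ne_top' π hπ (lp.single 2 j (1 : ℂ)) = 0 := by
    ext i
    rw [compL_apply, lp.single_apply, Pi.single_apply, if_neg (hj i)]
    rfl
  rw [this, inner_zero_left]

end Ext

section Rank

variable {G : Type*} {X Y : Type*}

lemma inj_pair (x : X) : Function.Injective (fun g : G => (x, g)) := fun _ _ h =>
  (Prod.ext_iff.1 h).2

lemma inj_inl : Function.Injective (fun q : Y × G => ((Sum.inl q.1 : Y ⊕ X), q.2)) := by
  rintro ⟨y, g⟩ ⟨y', g'⟩ h
  simp only [Prod.mk.injEq, Sum.inl.injEq] at h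
  exact Prod.ext h.1 h.2

lemma inj_inr : Function.Injective (fun q : X × G => ((Sum.inr q.1 : Y ⊕ X), q.2)) := by
  rintro ⟨y, g⟩ ⟨y', g'⟩ h
  simp only [Prod.mk.injEq, Sum.inr.injEq] at h
  exact Prod.ext h.1 h.2

/-- rank lemma -/
theorem rank_le [Group G] [Fintype X] [Fintype Y] {T : H G X →L[ℂ] H G Y} (hT : Equi T)
    (hd : ∀ y : Y, (bas y : H G Y) ∈ closure (Set.range T)) :
    Fintype.card Y ≤ Fintype.card X := by
  -- approximate solutions
  have hstep : ∀ η : ℝ, 0 < η → η ≤ 1 → (Fintype.card Y : ℝ) * (1 - 4 * η ^ 2) ≤ Fintype.card X := by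
    intro η hη hη1
    have hex : ∀ y : Y, ∃ x : H G X, ‖T x - bas y‖ ≤ η := by
      intro y
      obtain ⟨_, ⟨x, rfl⟩, hx⟩ := Metric.mem_closure_iff.1 (hd y) η hη
      refine ⟨x, ?_⟩
      rw [← dist_eq_norm, dist_comm]
      exact hx.le
    choose xs hxs using hex
    obtain ⟨B, hB⟩ : ∃ B : ℝ, 0 < B ∧ ∀ y, ‖xs y‖ ≤ B := by
      refine ⟨∑ y, ‖xs y‖ + 1, ?_, fun y => ?_⟩
      · have : 0 ≤ ∑ y, ‖xs y‖ := Finset.sum_nonneg fun _ _ => norm_nonneg _
        linarith
      · have := Finset.single_le_sum (f := fun y => ‖xs y‖) (fun _ _ => norm_nonneg _)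
          (Finset.mem_univ y)
        linarith
    obtain ⟨hB0, hB⟩ := hB
    set δ : ℝ := η / B with hδ
    have hδ0 : 0 < δ := by positivity
    let T' : H G X →L[ℂ] H G (Y ⊕ X) :=
      (extL (fun q : Y × G => ((Sum.inl q.1 : Y ⊕ X), q.2)) inj_inl) ∘L T +
        (δ : ℂ) • (extL (fun q : X × G => ((Sum.inr q.1 : Y ⊕ X), q.2)) inj_inr)
    have hl : ∀ (x : H G X) (y : Y) (g : G), T' x (Sum.inl y, g) = T x (y, g) := by
      intro x y g
      show extL (fun q : Y × G => ((Sum.inl q.1 : Y ⊕ X), q.2)) inj_inl (T x) (Sum.inl y, g) +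
        (δ : ℂ) * extL (fun q : X × G => ((Sum.inr q.1 : Y ⊕ X), q.2)) inj_inr x (Sum.inl y, g) = _
      rw [extL_apply (fun q : Y × G => ((Sum.inl q.1 : Y ⊕ X), q.2)) inj_inl (T x) (y, g),
        extL_apply_ne _ _ _ _ (by intro i; simp), mul_zero, add_zero]
    have hr : ∀ (x : H G X) (x' : X) (g : G), T' x (Sum.inr x', g) = δ * x (x', g) := by
      intro x y g
      show extL (fun q : Y × G => ((Sum.inl q.1 : Y ⊕ X), q.2)) inj_inl (T x) (Sum.inr y, g) +
        (δ : ℂ) * extL (fun q : X × G => ((Sum.inr q.1 : Y ⊕ X), q.2)) inj_inr x (Sum.inr y, g) = _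
      rw [extL_apply (fun q : X × G => ((Sum.inr q.1 : Y ⊕ X), q.2)) inj_inr x (y, g),
        extL_apply_ne _ _ _ _ (by intro i; simp), zero_add]
    have hE : Equi T' := by
      intro g v
      ext ⟨z, h⟩
      rcases z with y | x
      · rw [hl, hT, lam_apply, lam_apply, hl]
      · rw [hr, lam_apply, lam_apply, hr]
    have hbd : ∀ x, ‖x‖ ≤ (⟨δ⁻¹, by positivity⟩ : ℝ≥0) * ‖T' x‖ := by
      intro x
      have h1 : compL 2 two_ne_top' (fun q : X × G => ((Sum.inr q.1 : Y ⊕ X), q.2)) inj_inr (T' x) =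
          (δ : ℂ) • x := by
        ext ⟨x', g⟩
        exact hr x x' g
      have h2 := norm_compL_apply_le two_ne_top' (fun q : X × G => ((Sum.inr q.1 : Y ⊕ X), q.2))
        inj_inr (T' x)
      rw [h1, norm_smul] at h2
      have h3 : ‖(δ : ℂ)‖ = δ := by
        rw [Complex.norm_real, Real.norm_of_nonneg hδ0.le]
      rw [h3] at h2
      show ‖x‖ ≤ δ⁻¹ * ‖T' x‖
      rw [inv_mul_eq_div, le_div_iff₀ hδ0, mul_comm]
      exact h2
    obtain ⟨S, hS, hort, htr⟩ := range_trace hE (ContinuousLinearMap.antilipschitz_of_bound T' hbd)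
    have hpyth : ∀ (z : Y ⊕ X) (x : H G X), 1 - ‖(bas z : H G (Y ⊕ X)) - T' x‖ ^ 2 ≤
        ‖T' (S (bas z))‖ ^ 2 := by
      intro z x
      have h1 : ‖(bas z : H G (Y ⊕ X))‖ ^ 2 = ‖T' (S (bas z))‖ ^ 2 +
          ‖(bas z : H G (Y ⊕ X)) - T' (S (bas z))‖ ^ 2 := by
        have h2 := norm_add_sq_eq_norm_sq_add_norm_sq_of_inner_eq_zero
          (𝕜 := ℂ) (T' (S (bas z))) ((bas z : H G (Y ⊕ X)) - T' (S (bas z))) (hort _ _)
        rw [add_sub_cancel] at h2
        nlinarith [h2]
      have h3 : ‖(bas z : H G (Y ⊕ X)) - T' x‖ ^ 2 =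
          ‖(bas z : H G (Y ⊕ X)) - T' (S (bas z))‖ ^ 2 + ‖T' (S (bas z) - x)‖ ^ 2 := by
        have h4 : inner ℂ ((bas z : H G (Y ⊕ X)) - T' (S (bas z))) (T' (S (bas z) - x)) = 0 := by
          rw [← inner_conj_symm, hort, map_zero]
        have h5 := norm_add_sq_eq_norm_sq_add_norm_sq_of_inner_eq_zero
          (𝕜 := ℂ) ((bas z : H G (Y ⊕ X)) - T' (S (bas z))) (T' (S (bas z) - x)) h4
        have h6 : (bas z : H G (Y ⊕ X)) - T' (S (bas z)) + T' (S (bas z) - x) =
            (bas z : H G (Y ⊕ X)) - T' x := by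
          rw [map_sub]; abel
        rw [h6] at h5
        nlinarith [h5]
      rw [norm_bas] at h1
      nlinarith [sq_nonneg ‖T' (S (bas z) - x)‖]
    have hy : ∀ y : Y, 1 - 4 * η ^ 2 ≤ ‖T' (S (bas (Sum.inl y)))‖ ^ 2 := by
      intro y
      refine le_trans ?_ (hpyth (Sum.inl y) (xs y))
      have h1 : (bas (Sum.inl y) : H G (Y ⊕ X)) - T' (xs y) =
          - (extL (fun q : Y × G => ((Sum.inl q.1 : Y ⊕ X), q.2)) inj_inl (T (xs y) - bas y)) -
          (δ : ℂ) • (extL (fun q : X × G => ((Sum.inr q.1 : Y ⊕ X), q.2)) inj_inr (xs y)) := by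
        have h2 : (bas (Sum.inl y) : H G (Y ⊕ X)) =
            extL (fun q : Y × G => ((Sum.inl q.1 : Y ⊕ X), q.2)) inj_inl (bas y) := by
          ext ⟨z, g⟩
          rcases z with y' | x'
          · rw [extL_apply (fun q : Y × G => ((Sum.inl q.1 : Y ⊕ X), q.2)) inj_inl (bas y) (y', g)]
            by_cases h : y' = y ∧ g = 1
            · obtain ⟨rfl, rfl⟩ := h
              rw [bas_self]
              exact (bas_self _).symm
            · rw [bas_ne (fun h' => h (Prod.mk.inj h')), bas_ne]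
              intro h'
              apply h
              simp only [Prod.mk.injEq, Sum.inl.injEq] at h'
              exact h'
          · rw [extL_apply_ne _ _ _ _ (by intro i; simp), bas_ne]
            simp
        rw [h2, map_sub]
        show _ - (extL (fun q : Y × G => ((Sum.inl q.1 : Y ⊕ X), q.2)) inj_inl (T (xs y)) +
          (δ : ℂ) • extL (fun q : X × G => ((Sum.inr q.1 : Y ⊕ X), q.2)) inj_inr (xs y)) = _
        abel
      have h3 : ‖(bas (Sum.inl y) : H G (Y ⊕ X)) - T' (xs y)‖ ≤ 2 * η := by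
        rw [h1]
        refine (norm_sub_le _ _).trans ?_
        rw [norm_neg, norm_smul, Complex.norm_real, Real.norm_of_nonneg hδ0.le]
        have h4 := (norm_extL_apply_le (fun q : Y × G => ((Sum.inl q.1 : Y ⊕ X), q.2)) inj_inl
          (T (xs y) - bas y)).trans (hxs y)
        have h5 : δ * ‖extL (fun q : X × G => ((Sum.inr q.1 : Y ⊕ X), q.2)) inj_inr (xs y)‖ ≤ η := by
          have h6 := (norm_extL_apply_le (fun q : X × G => ((Sum.inr q.1 : Y ⊕ X), q.2)) inj_inr
            (xs y)).trans (hB y)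
          calc δ * ‖extL (fun q : X × G => ((Sum.inr q.1 : Y ⊕ X), q.2)) inj_inr (xs y)‖ ≤ δ * B :=
                mul_le_mul_of_nonneg_left h6 hδ0.le
            _ = η := by rw [hδ]; field_simp
        linarith
      have h7 : ‖(bas (Sum.inl y) : H G (Y ⊕ X)) - T' (xs y)‖ ^ 2 ≤ (2 * η) ^ 2 :=
        pow_le_pow_left₀ (norm_nonneg _) h3 2
      nlinarith
    have h8 : ∑ y : Y, (1 - 4 * η ^ 2) ≤ ∑ y : Y, ‖T' (S (bas (Sum.inl y)))‖ ^ 2 :=
      Finset.sum_le_sum fun y _ => hy y
    have h9 : ∑ y : Y, ‖T' (S (bas (Sum.inl y)))‖ ^ 2 ≤ ∑ z : Y ⊕ X, ‖T' (S (bas z))‖ ^ 2 := by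
      rw [Fintype.sum_sum_type]
      have : 0 ≤ ∑ x : X, ‖T' (S (bas (Sum.inr x)))‖ ^ 2 :=
        Finset.sum_nonneg fun _ _ => by positivity
      linarith
    rw [htr] at h9
    rw [Finset.sum_const, nsmul_eq_mul, Finset.card_univ] at h8
    linarith
  by_contra hlt
  push Not at hlt
  have h1 : (Fintype.card X : ℝ) + 1 ≤ Fintype.card Y := by exact_mod_cast hlt
  set N : ℝ := (Fintype.card Y : ℝ) with hN
  have hN1 : 1 ≤ N := by
    have : (0 : ℝ) ≤ Fintype.card X := by positivity
    linarith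
  have h2 := hstep (1 / (4 * N)) (by positivity) (by
    rw [div_le_one (by positivity)]; linarith)
  have h3 : N * (1 - 4 * (1 / (4 * N)) ^ 2) = N - 1 / (4 * N) := by
    field_simp
  rw [h3] at h2
  have h4 : 1 / (4 * N) ≤ 1 / 4 := by
    apply one_div_le_one_div_of_le (by norm_num); linarith
  linarith

end Rank

section Weak

variable {κ : Type*}

/-- a bounded, coordinatewise convergent sequence in a subspace converges to an element of its
closure -/
lemma weak_mem_closure (V : Submodule ℂ (L 2 κ)) (u : ℕ → L 2 κ) (hu : ∀ n, u n ∈ V) (w : L 2 κ)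
    (M : ℝ) (hM : ∃ᶠ n in Filter.atTop, ‖u n‖ ≤ M)
    (hc : ∀ i, Filter.Tendsto (fun n => u n i) Filter.atTop (nhds (w i))) :
    w ∈ closure (V : Set (L 2 κ)) := by
  have hclosed : IsClosed (V.topologicalClosure : Set (L 2 κ)) := V.isClosed_topologicalClosure
  have hcs : CompleteSpace V.topologicalClosure := hclosed.completeSpace_coe
  set P := V.topologicalClosure.starProjection with hP
  have hort : ∀ v ∈ V, inner ℂ (w - P w) v = 0 := by
    intro v hv
    have h1 := (Submodule.mem_orthogonal _ _).1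
      (Submodule.sub_starProjection_mem_orthogonal (K := V.topologicalClosure) w) v
      (V.le_topologicalClosure hv)
    rw [← inner_conj_symm]
    change (starRingEnd ℂ) (inner ℂ v (w - V.topologicalClosure.starProjection w)) = 0
    rw [h1, map_zero]
  have hM0 : 0 ≤ M := by
    obtain ⟨n, hn⟩ := hM.exists
    exact (norm_nonneg _).trans hn
  -- the inner product with the limit vanishes
  have hz : inner ℂ (w - P w) w = 0 := by
    by_contra hne
    have hpos : 0 < ‖inner ℂ (w - P w) w‖ := norm_pos_iff.2 hne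
    set ε : ℝ := ‖inner ℂ (w - P w) w‖ / (2 * (M + ‖w‖ + 1)) with hε
    have hden : 0 < 2 * (M + ‖w‖ + 1) := by positivity
    have hε0 : 0 < ε := by positivity
    have hs := lp.hasSum_single two_ne_top' (w - P w)
    obtain ⟨F, hF⟩ := (Metric.tendsto_nhds.1 hs ε hε0).exists
    set wF : L 2 κ := ∑ i ∈ F, lp.single 2 i ((w - P w) i) with hwF
    have hd : ‖(w - P w) - wF‖ < ε := by
      rw [← dist_eq_norm, dist_comm]; exact hF
    have hin : ∀ v : L 2 κ, inner ℂ wF v = ∑ i ∈ F, inner ℂ ((w - P w) i) (v i) := by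
      intro v
      rw [hwF, sum_inner]
      refine Finset.sum_congr rfl fun i _ => ?_
      rw [lp.inner_single_left]
    have hlim : Filter.Tendsto (fun n => inner ℂ wF (u n)) Filter.atTop (nhds (inner ℂ wF w)) := by
      simp_rw [hin]
      refine tendsto_finsetSum _ fun i _ => ?_
      exact (Filter.Tendsto.inner tendsto_const_nhds (hc i))
    have hb : ∀ n, ‖u n‖ ≤ M → ‖inner ℂ wF (u n)‖ ≤ ε * M := by
      intro n hn
      have h1 : inner ℂ wF (u n) = - inner ℂ ((w - P w) - wF) (u n) := by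
        rw [inner_sub_left, hort _ (hu n)]; ring
      rw [h1, norm_neg]
      exact (norm_inner_le_norm _ _).trans (mul_le_mul hd.le hn (norm_nonneg _) hε0.le)
    have h2 : ‖inner ℂ wF w‖ ≤ ε * M := by
      have hlim' := hlim.norm
      by_contra h3
      push Not at h3
      have h4 := hlim'.eventually (lt_mem_nhds h3)
      obtain ⟨n, hn1, hn2⟩ := (hM.and_eventually h4).exists
      exact absurd (hb n hn1) (not_le.2 hn2)
    have h5 : ‖inner ℂ (w - P w) w‖ ≤ ε * M + ε * ‖w‖ := by
      have h6 : inner ℂ (w - P w) w = inner ℂ wF w + inner ℂ ((w - P w) - wF) w := by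
        rw [← inner_add_left]; congr 1; abel
      rw [h6]
      refine (norm_add_le _ _).trans (add_le_add h2 ?_)
      exact (norm_inner_le_norm _ _).trans (mul_le_mul_of_nonneg_right hd.le (norm_nonneg _))
    have h7 : ε * M + ε * ‖w‖ ≤ ‖inner ℂ (w - P w) w‖ / 2 := by
      have h8 : ε * (M + ‖w‖ + 1) = ‖inner ℂ (w - P w) w‖ / 2 := by
        rw [hε]; field_simp
      nlinarith
    linarith
  have h1 : inner ℂ (w - P w) (P w) = 0 := by
    have h2 := (Submodule.mem_orthogonal _ _).1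
      (Submodule.sub_starProjection_mem_orthogonal (K := V.topologicalClosure) w) (P w)
      (Submodule.starProjection_apply_mem _ _)
    rw [← inner_conj_symm]
    change (starRingEnd ℂ) (inner ℂ (P w) (w - V.topologicalClosure.starProjection w)) = 0
    rw [h2, map_zero]
  have h3 : w - P w = 0 := by
    rw [← @inner_self_eq_zero ℂ, inner_sub_right, hz, h1, sub_zero]
  have h4 : P w ∈ V.topologicalClosure := Submodule.starProjection_apply_mem _ _
  rw [← sub_eq_zero.1 h3] at h4
  exact h4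

end Weak

end Pool.Agent.H14.NS
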