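import Pool.Agent.H14.NS.Cutoff
import Pool.Agent.H14.NS.Rank

/-!
# Exact factorisations have heavy tails
-/

set_option autoImplicit false

open scoped ENNReal NNReal

namespace Pool.Agent.H14.NS

variable {ι : Type*} [DecidableEq ι]

/-- the identity `D C = 1` -/
lemma flow_identity {m : ℕ} {a : Fin (m + 1) → ι} (ha : Function.Injective a)
    {b : Fin m → FreeGroup ι → ℂ} (hb : ∀ i, Summable (fun h => ‖b i h‖))
    {c : Fin m → Fin (m + 1) → FreeGroup ι → ℂ} (hc : ∀ i j, Summable (fun h => ‖c i j h‖))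
    (h : ∀ j x, delt (FreeGroup.of (a j)) x = ∑ i, conv (b i) (c i j) x) (k j : Fin (m + 1))
    (x : FreeGroup ι) :
    ∑ i, ∑' g, c i j g * D (a k) (b i) (x * g⁻¹) = if x = 1 ∧ j = k then 1 else 0 := by
  have h1 := D_delt (a k) (a j) x
  have h2 : delt (FreeGroup.of (a j)) = fun x => ∑ i, conv (b i) (c i j) x := funext (h j)
  rw [h2, D_sum Finset.univ _ (fun i _ => summable_conv' (hb i) (hc i j))] at h1
  have h3 : ∀ i, D (a k) (conv (b i) (c i j)) x = ∑' g, c i j g * D (a k) (b i) (x * g⁻¹) :=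
    fun i => D_conv (hb i) (hc i j) (a k) x
  rw [Finset.sum_congr rfl (fun i _ => h3 i)] at h1
  rw [h1]
  simp only [ha.eq_iff]

/-- the operator of right multiplication by the matrix `c` -/
noncomputable def opT {G : Type*} [Group G] {m : ℕ} (c : Fin m → Fin (m + 1) → G → ℂ) :
    H G (Fin m) →L[ℂ] H G (Fin (m + 1)) :=
  ∑ j, ∑ i, (extL (fun g : G => (j, g)) (inj_pair j)) ∘L (convR 2 two_ne_top' (c i j)) ∘L
    (compL 2 two_ne_top' (fun g : G => (i, g)) (inj_pair i))

lemma opT_apply {G : Type*} [Group G] {m : ℕ} (c : Fin m → Fin (m + 1) → G → ℂ)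
    (x : H G (Fin m)) (j : Fin (m + 1)) (g : G) :
    opT c x (j, g) = ∑ i, convR 2 two_ne_top' (c i j)
      (compL 2 two_ne_top' (fun g : G => (i, g)) (inj_pair i) x) g := by
  have h1 : opT c x = ∑ j, ∑ i, extL (fun g : G => (j, g)) (inj_pair j)
      (convR 2 two_ne_top' (c i j) (compL 2 two_ne_top' (fun g : G => (i, g)) (inj_pair i) x)) := by
    unfold opT
    simp only [sum_apply]
    rfl
  rw [h1, lp.coeFn_sum, Finset.sum_apply, Finset.sum_eq_single j]
  · rw [lp.coeFn_sum, Finset.sum_apply]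
    refine Finset.sum_congr rfl fun i _ => ?_
    exact extL_apply (fun g : G => (j, g)) (inj_pair j) _ g
  · intro j' _ hj'
    rw [lp.coeFn_sum, Finset.sum_apply]
    refine Finset.sum_eq_zero fun i _ => ?_
    refine extL_apply_ne _ _ _ _ fun g' hg' => hj' ?_
    exact (Prod.ext_iff.1 hg').1
  · intro h; exact absurd (Finset.mem_univ _) h

lemma opT_equi {G : Type*} [Group G] {m : ℕ} {c : Fin m → Fin (m + 1) → G → ℂ}
    (hc : ∀ i j, Summable (fun h => ‖c i j h‖)) : Equi (opT c) := by
  intro g v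
  ext ⟨j, y⟩
  rw [lam_apply, opT_apply, opT_apply]
  refine Finset.sum_congr rfl fun i _ => ?_
  exact convR_left two_ne_top' (hc i j) g _ _ (fun y => rfl) y

/-- norm of a vector through its components -/
lemma norm_le_comp {G : Type*} {m : ℕ} (v : H G (Fin m)) (w : Fin m → L 2 G)
    (hw : ∀ j g, v (j, g) = w j g) : ‖v‖ ≤ ∑ j, ‖w j‖ := by
  have h1 : v = ∑ j, extL (fun g : G => (j, g)) (inj_pair j) (w j) := by
    ext ⟨j, g⟩
    rw [hw, lp.coeFn_sum, Finset.sum_apply, Finset.sum_eq_single j]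
    · exact (extL_apply (fun g : G => (j, g)) (inj_pair j) _ g).symm
    · intro j' _ hj'
      refine extL_apply_ne _ _ _ _ fun g' hg' => hj' ?_
      exact (Prod.ext_iff.1 hg').1
    · intro h; exact absurd (Finset.mem_univ _) h
  rw [h1]
  refine (norm_sum_le _ _).trans (Finset.sum_le_sum fun j _ => ?_)
  exact norm_extL_apply_le _ _ _

/-- growth quantity of a factorisation -/
noncomputable def grow {m : ℕ} (b : Fin m → FreeGroup ι → ℂ)
    (c : Fin m → Fin (m + 1) → FreeGroup ι → ℂ) (n : ℕ) : ℝ :=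
  ∑ i, √(sqt (b i) n) * ((∑ j, ∑ l ∈ Finset.range n, tl (c i j) l) / n)

theorem heavy {m : ℕ} {a : Fin (m + 1) → ι} (ha : Function.Injective a)
    {b : Fin m → FreeGroup ι → ℂ} (hb : ∀ i, Summable (fun h => ‖b i h‖))
    (hb0 : ∀ i, ∑' g, b i g = 0)
    {c : Fin m → Fin (m + 1) → FreeGroup ι → ℂ} (hc : ∀ i j, Summable (fun h => ‖c i j h‖))
    (h : ∀ j x, delt (FreeGroup.of (a j)) x = ∑ i, conv (b i) (c i j) x) :
    Filter.Tendsto (grow b c) Filter.atTop Filter.atTop := by
  by_contra hnot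
  rw [Filter.tendsto_atTop] at hnot
  push Not at hnot
  obtain ⟨M, hM⟩ := hnot
  -- truncated flows
  have hex : ∀ (k : Fin (m + 1)) (n : ℕ) (i : Fin m), ∃ v : L 2 (FreeGroup ι),
      ∀ y, v y = D (a k) (b i) y * ((kap (n + 1) y : ℝ) : ℂ) := fun k n i =>
    trunc_vec (hb i) (hb0 i) (a k) (Nat.succ_pos n)
  choose v hv using hex
  -- the vector in the big space
  let V : Fin (m + 1) → ℕ → H (FreeGroup ι) (Fin m) := fun k n =>
    ∑ i, extL (fun g : FreeGroup ι => (i, g)) (inj_pair i) (v k n i)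
  have hV : ∀ k n i, compL 2 two_ne_top' (fun g : FreeGroup ι => (i, g)) (inj_pair i) (V k n) =
      v k n i := by
    intro k n i
    ext g
    show (∑ i, extL (fun g : FreeGroup ι => (i, g)) (inj_pair i) (v k n i) :
      H (FreeGroup ι) (Fin m)) (i, g) = _
    rw [lp.coeFn_sum, Finset.sum_apply, Finset.sum_eq_single i]
    · exact extL_apply (fun g : FreeGroup ι => (i, g)) (inj_pair i) _ g
    · intro j' _ hj'
      refine extL_apply_ne _ _ _ _ fun g' hg' => hj' ?_
      exact (Prod.ext_iff.1 hg').1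
    · intro h; exact absurd (Finset.mem_univ _) h
  have hT : ∀ k n j x, opT c (V k n) (j, x) = ∑ i, convR 2 two_ne_top' (c i j) (v k n i) x := by
    intro k n j x
    rw [opT_apply]
    refine Finset.sum_congr rfl fun i _ => ?_
    rw [hV]
  have hTs : ∀ k n i j x, HasSum (fun g => c i j g * (D (a k) (b i) (x * g⁻¹) *
      ((kap (n + 1) (x * g⁻¹) : ℝ) : ℂ))) (convR 2 two_ne_top' (c i j) (v k n i) x) := by
    intro k n i j x
    refine (convR_apply two_ne_top' (hc i j) (v k n i) x).congr_fun fun g => ?_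
    rw [hv]
  have hDs : ∀ k i j x, Summable (fun g => c i j g * D (a k) (b i) (x * g⁻¹)) := by
    intro k i j x
    refine Summable.of_norm_bounded ((hc i j).mul_right (∑' g, ‖b i g‖)) fun g => ?_
    rw [norm_mul]
    exact mul_le_mul_of_nonneg_left (D_bound (hb i) _ _) (norm_nonneg _)
  -- coordinatewise convergence
  have hpt : ∀ k j x, Filter.Tendsto (fun n => opT c (V k n) (j, x)) Filter.atTop
      (nhds (if x = 1 ∧ j = k then 1 else 0)) := by
    intro k j x
    rw [← flow_identity ha hb hc h k j x]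
    simp_rw [hT]
    refine tendsto_finsetSum _ fun i _ => ?_
    have h1 : ∀ n, convR 2 two_ne_top' (c i j) (v k n i) x =
        ∑' g, c i j g * (D (a k) (b i) (x * g⁻¹) * ((kap (n + 1) (x * g⁻¹) : ℝ) : ℂ)) :=
      fun n => (hTs k n i j x).tsum_eq.symm
    simp_rw [h1]
    refine tendsto_tsum_of_dominated_convergence
      (bound := fun g => ‖c i j g‖ * ∑' g, ‖b i g‖) ((hc i j).mul_right _) ?_ ?_
    · intro g
      refine Filter.Tendsto.const_mul _ ?_
      have h2 : Filter.Tendsto (fun n : ℕ => kap (n + 1) (x * g⁻¹)) Filter.atTop (nhds 1) := by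
        unfold kap
        have h3 : Filter.Tendsto (fun n : ℕ => (1 : ℝ) -
            (FreeGroup.norm (x * g⁻¹) : ℝ) / ((n + 1 : ℕ) : ℝ)) Filter.atTop (nhds (1 - 0)) := by
          refine tendsto_const_nhds.sub ?_
          exact (tendsto_const_div_atTop_nhds_zero_nat _).comp (Filter.tendsto_add_atTop_nat 1)
        rw [sub_zero] at h3
        have h4 := (tendsto_const_nhds (x := (0 : ℝ))).max h3
        rwa [max_eq_right (zero_le_one)] at h4
      have h5 : Filter.Tendsto (fun n : ℕ => ((kap (n + 1) (x * g⁻¹) : ℝ) : ℂ)) Filter.atTop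
          (nhds ((1 : ℝ) : ℂ)) := (Complex.continuous_ofReal.tendsto _).comp h2
      have h6 := h5.const_mul (D (a k) (b i) (x * g⁻¹))
      rw [Complex.ofReal_one, mul_one] at h6
      exact h6
    · refine Filter.Eventually.of_forall fun n g => ?_
      rw [norm_mul]
      refine mul_le_mul_of_nonneg_left ?_ (norm_nonneg _)
      rw [norm_mul, Complex.norm_real, Real.norm_of_nonneg (kap_nonneg _ _)]
      exact (mul_le_of_le_one_right (norm_nonneg _) (kap_le_one _ _)).trans (D_bound (hb i) _ _)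
  -- boundedness
  have hcv : ∀ (k : Fin (m + 1)) (n : ℕ) (i : Fin m) (g : FreeGroup ι),
      ∃ q : L 2 (FreeGroup ι), (∀ y, q y = D (a k) (b i) y *
        ((kap (n + 1) y - kap (n + 1) (y * g) : ℝ) : ℂ)) ∧
        ‖q‖ ≤ 3 * √(sqt (b i) (n + 1)) * min 1 ((FreeGroup.norm g : ℝ) / ((n + 1 : ℕ) : ℝ)) :=
    fun k n i g => comm_vec (hb i) (hb0 i) (a k) (Nat.succ_pos n) g
  choose q hq hqn using hcv
  have hnorm : ∀ k n, ‖opT c (V k n)‖ ≤ (m + 1) + 3 * grow b c (n + 1) := by
    intro k n
    -- error vectors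
    have herr : ∀ i j, ∃ e : L 2 (FreeGroup ι), (∀ x, e x =
        convR 2 two_ne_top' (c i j) (v k n i) x -
          ((kap (n + 1) x : ℝ) : ℂ) * ∑' g, c i j g * D (a k) (b i) (x * g⁻¹)) ∧
        ‖e‖ ≤ 3 * √(sqt (b i) (n + 1)) *
          ((∑ l ∈ Finset.range (n + 1), tl (c i j) l) / ((n + 1 : ℕ) : ℝ)) := by
      intro i j
      obtain ⟨hs, hle⟩ := min_sum (hc i j) (Nat.succ_pos n)
      have hbd : ∀ g, ‖c i j g • rho 2 two_ne_top' g (q k n i g)‖ ≤
          3 * √(sqt (b i) (n + 1)) *
            (‖c i j g‖ * min 1 ((FreeGroup.norm g : ℝ) / ((n + 1 : ℕ) : ℝ))) := by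
        intro g
        rw [norm_smul]
        calc ‖c i j g‖ * ‖rho 2 two_ne_top' g (q k n i g)‖ ≤ ‖c i j g‖ * ‖q k n i g‖ :=
              mul_le_mul_of_nonneg_left (norm_compL_apply_le _ _ _ _) (norm_nonneg _)
          _ ≤ ‖c i j g‖ * (3 * √(sqt (b i) (n + 1)) *
                min 1 ((FreeGroup.norm g : ℝ) / ((n + 1 : ℕ) : ℝ))) :=
              mul_le_mul_of_nonneg_left (hqn k n i g) (norm_nonneg _)
          _ = _ := by ring
      have hsum : Summable (fun g => c i j g • rho 2 two_ne_top' g (q k n i g)) :=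
        Summable.of_norm_bounded (hs.mul_left _) hbd
      refine ⟨∑' g, c i j g • rho 2 two_ne_top' g (q k n i g), fun x => ?_, ?_⟩
      · have h1 := hsum.hasSum.mapL (lp.evalCLM ℂ (fun _ : FreeGroup ι => ℂ) (p := 2) x)
        have h2 : HasSum (fun g => c i j g * (D (a k) (b i) (x * g⁻¹) *
            ((kap (n + 1) (x * g⁻¹) : ℝ) : ℂ)) -
            ((kap (n + 1) x : ℝ) : ℂ) * (c i j g * D (a k) (b i) (x * g⁻¹)))
            (convR 2 two_ne_top' (c i j) (v k n i) x -
              ((kap (n + 1) x : ℝ) : ℂ) * ∑' g, c i j g * D (a k) (b i) (x * g⁻¹)) :=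
          (hTs k n i j x).sub ((hDs k i j x).hasSum.mul_left _)
        refine h1.unique (h2.congr_fun fun g => ?_)
        show c i j g * q k n i g (x * g⁻¹) = _
        rw [hq, inv_mul_cancel_right]
        push_cast
        ring
      · refine (tsum_of_norm_bounded (hs.mul_left _).hasSum hbd).trans ?_
        rw [tsum_mul_left]
        exact mul_le_mul_of_nonneg_left hle (by positivity)
    choose e he hen using herr
    -- the component of the image
    let w : Fin (m + 1) → L 2 (FreeGroup ι) := fun j =>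
      lp.single 2 1 (if j = k then (1 : ℂ) else 0) + ∑ i, e i j
    have hw : ∀ j x, opT c (V k n) (j, x) = w j x := by
      intro j x
      rw [hT]
      show _ = (lp.single 2 1 (if j = k then (1 : ℂ) else 0) + ∑ i, e i j :
        L 2 (FreeGroup ι)) x
      rw [lp.coeFn_add, Pi.add_apply, lp.coeFn_sum, Finset.sum_apply,
        Finset.sum_congr rfl (fun i _ => he i j x), Finset.sum_sub_distrib, ← Finset.mul_sum,
        flow_identity ha hb hc h k j x]
      by_cases hx : x = 1
      · subst hx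
        rw [lp.single_apply_self, kap_one]
        by_cases hj : j = k
        · simp [hj]
        · simp [hj]
      · rw [lp.single_apply_ne _ _ _ hx, if_neg (fun hh => hx hh.1)]
        ring
    refine (norm_le_comp _ w hw).trans ?_
    have h1 : ∀ j, ‖w j‖ ≤ 1 + ∑ i, 3 * √(sqt (b i) (n + 1)) *
          ((∑ l ∈ Finset.range (n + 1), tl (c i j) l) / ((n + 1 : ℕ) : ℝ)) := by
      intro j
      refine (norm_add_le _ _).trans (add_le_add ?_ ?_)
      · rw [lp.norm_single (by norm_num)]
        split_ifs <;> simp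
      · exact (norm_sum_le _ _).trans (Finset.sum_le_sum fun i _ => hen i j)
    refine (Finset.sum_le_sum fun j _ => h1 j).trans ?_
    rw [Finset.sum_add_distrib, Finset.sum_const, Finset.card_univ, Fintype.card_fin,
      nsmul_eq_mul, mul_one, Finset.sum_comm]
    push_cast
    refine add_le_add le_rfl (le_of_eq ?_)
    unfold grow
    rw [Finset.mul_sum]
    refine Finset.sum_congr rfl fun i _ => ?_
    rw [← Finset.mul_sum, Finset.sum_div]
    push_cast
    ring
  -- conclusion
  have hcl : ∀ k : Fin (m + 1), (bas k : H (FreeGroup ι) (Fin (m + 1))) ∈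
      closure (Set.range (opT c)) := by
    intro k
    have h1 := weak_mem_closure (opT c).range (fun n => opT c (V k n)) (fun n => ⟨_, rfl⟩)
      (bas k) ((m + 1) + 3 * M) ?_ ?_
    · exact h1
    · have h2 : ∃ᶠ n in Filter.atTop, grow b c (n + 1) < M := by
        rw [Filter.frequently_atTop]
        intro N
        obtain ⟨n, hn, hn'⟩ := (Filter.frequently_atTop.1 hM) (N + 1)
        refine ⟨n - 1, by omega, ?_⟩
        rw [Nat.sub_add_cancel (by omega)]
        exact hn'
      refine h2.mono fun n hn => (hnorm k n).trans ?_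
      have := hn.le
      linarith
    · rintro ⟨j, x⟩
      have h3 : (bas k : H (FreeGroup ι) (Fin (m + 1))) (j, x) = if x = 1 ∧ j = k then 1 else 0 := by
        by_cases hx : x = 1 ∧ j = k
        · obtain ⟨rfl, rfl⟩ := hx
          rw [bas_self]; simp
        · rw [if_neg hx, bas_ne]
          intro h'
          exact hx ⟨(Prod.ext_iff.1 h').2, (Prod.ext_iff.1 h').1⟩
      rw [h3]
      exact hpt k j x
  have hfin := rank_le (opT_equi hc) hcl
  rw [Fintype.card_fin, Fintype.card_fin] at hfin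
  omega

end Pool.Agent.H14.NS
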