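import Pool.Agent.H14.NS.Base

/-!
# Equivariant operators on `ℓ²(X × G)`: trace of the range projection
-/

set_option autoImplicit false

open scoped ENNReal NNReal
open scoped Classical

namespace Pool.Agent.H14.NS

/-- the Hilbert space `ℓ²(X × G)` -/
noncomputable abbrev H (G X : Type*) := L 2 (X × G)

section Trace

variable {G : Type*} [Group G] {X Z : Type*}

lemma two_ne_top' : (2 : ℝ≥0∞) ≠ ∞ := by norm_num

lemma inj_left (g : G) : Function.Injective (fun y : X × G => (y.1, g⁻¹ * y.2)) := by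
  rintro ⟨x, h⟩ ⟨x', h'⟩ e
  simp only [Prod.mk.injEq, mul_right_inj] at e
  exact Prod.ext e.1 e.2

/-- left translation -/
noncomputable def lam (g : G) : H G X →L[ℂ] H G X :=
  compL 2 two_ne_top' (fun y : X × G => (y.1, g⁻¹ * y.2)) (inj_left g)

lemma lam_apply (g : G) (v : H G X) (x : X) (h : G) : lam g v (x, h) = v (x, g⁻¹ * h) := rfl

/-- basis vector at the identity -/
noncomputable def bas (x : X) : H G X := lp.single 2 (x, (1 : G)) 1

lemma lam_single (g h : G) (x : X) (a : ℂ) :
    lam g (lp.single 2 (x, h) a : H G X) = lp.single 2 (x, g * h) a := by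
  ext ⟨y, k⟩
  rw [lam_apply, lp.single_apply, lp.single_apply, Pi.single_apply, Pi.single_apply]
  have : ((y, g⁻¹ * k) = (x, h)) ↔ ((y, k) = (x, g * h)) := by
    simp only [Prod.mk.injEq]
    constructor
    · rintro ⟨rfl, rfl⟩; simp
    · rintro ⟨rfl, rfl⟩; simp
  by_cases hh : (y, k) = (x, g * h)
  · rw [if_pos hh, if_pos (this.2 hh)]
  · rw [if_neg hh, if_neg (fun h' => hh (this.1 h'))]

lemma bas_self (x : X) : (bas x : H G X) (x, 1) = 1 := by
  unfold bas
  rw [lp.single_apply_self]

lemma bas_ne {x y : X} {g : G} (h : (y, g) ≠ (x, (1 : G))) : (bas x : H G X) (y, g) = 0 := by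
  unfold bas
  rw [lp.single_apply_ne _ _ _ h]

lemma norm_bas (x : X) : ‖(bas x : H G X)‖ = 1 := by
  unfold bas
  rw [lp.norm_single (by norm_num)]
  simp

/-- commutes with left translations -/
def Equi (T : H G X →L[ℂ] H G Z) : Prop := ∀ (g : G) (v : H G X), T (lam g v) = lam g (T v)

lemma hasSum_equi {B : H G Z →L[ℂ] H G X} (hB : Equi B) (v : H G Z) (x : X) :
    HasSum (fun i : Z × G => v i * B (bas i.1) (x, i.2⁻¹)) (B v (x, 1)) := by
  have h1 := ((lp.hasSum_single two_ne_top' v).mapL B).mapL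
    (lp.evalCLM ℂ (fun _ : X × G => ℂ) (p := 2) (x, (1 : G)))
  refine h1.congr_fun ?_
  rintro ⟨z, g⟩
  have e1 : (lp.single 2 (z, g) (v (z, g)) : H G Z) = v (z, g) • lam g (bas z) := by
    unfold bas
    rw [lam_single, ← lp.single_smul]
    simp
  show v (z, g) * B (bas z) (x, g⁻¹) = (B (lp.single 2 (z, g) (v (z, g)) : H G Z)) (x, 1)
  rw [e1, map_smul, hB, lp.coeFn_smul, Pi.smul_apply, lam_apply, mul_one, smul_eq_mul]

/-- trace property -/
lemma trace_comm [Fintype X] [Fintype Z] {A : H G X →L[ℂ] H G Z} {B : H G Z →L[ℂ] H G X}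
    (hA : Equi A) (hB : Equi B) :
    ∑ x : X, B (A (bas x)) (x, 1) = ∑ z : Z, A (B (bas z)) (z, 1) := by
  have h1 : ∀ x : X, B (A (bas x)) (x, 1) =
      ∑ z : Z, ∑' g : G, A (bas x) (z, g) * B (bas z) (x, g⁻¹) := by
    intro x
    have h := hasSum_equi hB (A (bas x)) x
    rw [← h.tsum_eq, h.summable.tsum_prod, tsum_fintype]
  have h2 : ∀ z : Z, A (B (bas z)) (z, 1) =
      ∑ x : X, ∑' g : G, B (bas z) (x, g) * A (bas x) (z, g⁻¹) := by
    intro z
    have h := hasSum_equi hA (B (bas z)) z
    rw [← h.tsum_eq, h.summable.tsum_prod, tsum_fintype]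
  simp_rw [h1, h2]
  rw [Finset.sum_comm]
  refine Finset.sum_congr rfl fun z _ => Finset.sum_congr rfl fun x _ => ?_
  rw [← (Equiv.inv G).tsum_eq (fun g => A (bas x) (z, g) * B (bas z) (x, g⁻¹))]
  refine tsum_congr fun g => ?_
  simp only [Equiv.inv_apply, inv_inv]
  ring

lemma lam_inner (g : G) (v w : H G X) : inner ℂ (lam g v) w = inner ℂ v (lam g⁻¹ w) := by
  rw [lp.inner_eq_tsum, lp.inner_eq_tsum]
  have e : Function.Bijective (fun y : X × G => (y.1, g * y.2)) := by
    constructor
    · have := inj_left (X := X) g⁻¹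
      simpa using this
    · rintro ⟨x, h⟩
      exact ⟨(x, g⁻¹ * h), by simp⟩
  rw [← (Equiv.ofBijective _ e).tsum_eq]
  refine tsum_congr ?_
  rintro ⟨x, h⟩
  show inner ℂ (lam g v (x, g * h)) (w (x, g * h)) = inner ℂ (v (x, h)) (lam g⁻¹ w (x, h))
  rw [lam_apply, lam_apply]
  simp

/-- the projection onto the range of an equivariant operator which is bounded below -/
theorem range_trace [Fintype X] [Fintype Z] {T : H G X →L[ℂ] H G Z} (hT : Equi T) {K : ℝ≥0}
    (hK : AntilipschitzWith K T) :
    ∃ S : H G Z →L[ℂ] H G X, (∀ x, S (T x) = x) ∧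
      (∀ (y : H G Z) (x : H G X), inner ℂ (T x) (y - T (S y)) = 0) ∧
      ∑ z : Z, ‖T (S (bas z))‖ ^ 2 = Fintype.card X := by
  have hcl : IsClosed (Set.range T) := hK.isClosed_range T.uniformContinuous
  have hinj : Function.Injective T := hK.injective
  have hcs : CompleteSpace T.range := hcl.completeSpace_coe
  let e := T.equivRange hinj hcl
  let S : H G Z →L[ℂ] H G X := (e.symm : T.range →L[ℂ] H G X) ∘L T.range.orthogonalProjectionOnto
  have hTS : ∀ y, T (S y) = T.range.starProjection y := by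
    intro y
    have h1 : T (e.symm (T.range.orthogonalProjectionOnto y)) =
        ((e (e.symm (T.range.orthogonalProjectionOnto y)) : T.range) : H G Z) := rfl
    rw [e.apply_symm_apply] at h1
    exact h1
  have hort : ∀ (y : H G Z) (x : H G X), inner ℂ (T x) (y - T (S y)) = 0 := by
    intro y x
    rw [hTS]
    exact (Submodule.mem_orthogonal _ _).1 (Submodule.sub_starProjection_mem_orthogonal (K := T.range) y)
      (T x) ⟨x, rfl⟩
  have hST : ∀ x, S (T x) = x := by
    intro x
    have h1 := hort (T x) (x - S (T x))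
    rw [← map_sub, inner_self_eq_zero] at h1
    exact (sub_eq_zero.1 (hinj (h1.trans (map_zero T).symm))).symm
  have huni : ∀ (y : H G Z) (x : H G X), (∀ x', inner ℂ (T x') (y - T x) = 0) → S y = x := by
    intro y x h
    have h1 := h (S y - x)
    have h2 := hort y (S y - x)
    have h3 : inner ℂ (T (S y - x)) (T (S y - x)) = 0 := by
      have : T (S y - x) = (y - T x) - (y - T (S y)) := by rw [map_sub]; abel
      nth_rewrite 2 [this]
      rw [inner_sub_right, h1, h2, sub_zero]
    rw [inner_self_eq_zero] at h3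
    exact sub_eq_zero.1 (hinj (h3.trans (map_zero T).symm))
  have hS : Equi S := by
    intro g v
    apply huni
    intro x'
    have h1 : lam g v - T (lam g (S v)) = lam g (v - T (S v)) := by rw [hT, map_sub]
    rw [h1]
    have h2 : inner ℂ (T x') (lam g (v - T (S v))) =
        inner ℂ (lam g⁻¹ (T x')) (v - T (S v)) := by
      rw [lam_inner, inv_inv]
    rw [h2, ← hT]
    exact hort v _
  refine ⟨S, hST, hort, ?_⟩
  have htr := trace_comm hT hS
  have h1 : ∑ x : X, S (T (bas x)) (x, 1) = (Fintype.card X : ℂ) := by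
    have : ∀ x : X, S (T (bas x)) (x, (1 : G)) = 1 := by
      intro x
      rw [hST]
      unfold bas
      rw [lp.single_apply_self]
    simp [this]
  have h2 : ∀ z : Z, T (S (bas z)) (z, (1 : G)) = ((‖T (S (bas z))‖ ^ 2 : ℝ) : ℂ) := by
    intro z
    have h3 : inner ℂ (bas z : H G Z) (T (S (bas z))) = T (S (bas z)) (z, (1 : G)) := by
      unfold bas
      rw [lp.inner_single_left]
      simp
    have h4 := hort (bas z) (S (bas z))
    rw [inner_sub_right, sub_eq_zero] at h4
    have h5 : inner ℂ (bas z : H G Z) (T (S (bas z))) =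
        inner ℂ (T (S (bas z))) (T (S (bas z))) := by
      have h6 : (starRingEnd ℂ) (inner ℂ (T (S (bas z))) (bas z)) =
          (starRingEnd ℂ) (inner ℂ (T (S (bas z))) (T (S (bas z)))) := by rw [h4]
      rw [inner_conj_symm, inner_conj_symm] at h6
      exact h6
    rw [← h3, h5, inner_self_eq_norm_sq_to_K]
    norm_cast
  rw [h1] at htr
  simp_rw [h2] at htr
  exact_mod_cast htr.symm

end Trace

end Pool.Agent.H14.NS
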