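import Pool.Agent.H14.NS.Child
import Pool.Agent.H14.NS.Trace

/-!
# One element does not generate the augmentation ideal of a free group
-/

set_option autoImplicit false

open scoped ENNReal NNReal

namespace Pool.Agent.H14.NS

section Delta

variable {G : Type*} [Group G] [DecidableEq G]

/-- `e - a` -/
noncomputable def delt (a x : G) : ℂ := (if x = 1 then 1 else 0) - (if x = a then 1 else 0)

lemma delt_hasSum (a : G) (f : G → ℂ) : HasSum (fun h => delt a h * f h) (f 1 - f a) := by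
  have h1 : HasSum (fun h : G => (if h = 1 then (1 : ℂ) else 0) * f h) (f 1) := by
    have := hasSum_single (f := fun h : G => (if h = 1 then (1 : ℂ) else 0) * f h) 1
      (fun h hh => by simp [hh])
    simpa using this
  have h2 : HasSum (fun h : G => (if h = a then (1 : ℂ) else 0) * f h) (f a) := by
    have := hasSum_single (f := fun h : G => (if h = a then (1 : ℂ) else 0) * f h) a
      (fun h hh => by simp [hh])
    simpa using this
  refine (h1.sub h2).congr_fun fun h => ?_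
  unfold delt
  ring

lemma delt_summable (a : G) : Summable (fun h => ‖delt a h‖) := by
  refine summable_of_ne_finset_zero (s := {1, a}) fun h hh => ?_
  simp only [Finset.mem_insert, Finset.mem_singleton, not_or] at hh
  simp [delt, hh.1, hh.2]

end Delta

section Left

variable {G : Type*} [Group G] {p : ℝ≥0∞} [Fact (1 ≤ p)]

lemma convR_left (hp' : p ≠ ∞) {c : G → ℂ} (hc : Summable (fun h => ‖c h‖)) (g : G)
    (x x' : L p G) (h : ∀ y, x' y = x (g⁻¹ * y)) (y : G) :
    convR p hp' c x' y = convR p hp' c x (g⁻¹ * y) := by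
  rw [← (convR_apply hp' hc x' y).tsum_eq, ← (convR_apply hp' hc x (g⁻¹ * y)).tsum_eq]
  refine tsum_congr fun k => ?_
  rw [h, mul_assoc]

lemma convR_add (hp' : p ≠ ∞) {c c' : G → ℂ} (hc : Summable (fun h => ‖c h‖))
    (hc' : Summable (fun h => ‖c' h‖)) (x : L p G) (y : G) :
    HasSum (fun h => (c h + c' h) * x (y * h⁻¹)) (convR p hp' c x y + convR p hp' c' x y) := by
  refine ((convR_apply hp' hc x y).add (convR_apply hp' hc' x y)).congr_fun fun h => ?_
  ring

end Left

/-- a convolution operator on `ℓ²(G)` which is bounded below is onto -/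
theorem surj_of_bounded_below {G : Type*} [Group G] {c : G → ℂ} (hc : Summable (fun h => ‖c h‖))
    {K : ℝ≥0} (hK : ∀ x : L 2 G, ‖x‖ ≤ K * ‖convR 2 two_ne_top' c x‖) :
    ∃ h : L 2 G, convR 2 two_ne_top' c h 1 = 1 ∧ ∀ y : G, y ≠ 1 → convR 2 two_ne_top' c h y = 0 := by
  have hi1 : Function.Injective (fun q : Unit × G => q.2) := by
    rintro ⟨u, g⟩ ⟨u', g'⟩ h
    exact Prod.ext (Subsingleton.elim _ _) h
  have hi2 : Function.Injective (fun g : G => ((), g)) := fun g g' h => (Prod.ext_iff.1 h).2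
  let up : L 2 G →L[ℂ] H G Unit := compL 2 two_ne_top' _ hi1
  let down : H G Unit →L[ℂ] L 2 G := compL 2 two_ne_top' _ hi2
  let T := convR (G := G) 2 two_ne_top' c
  let T' : H G Unit →L[ℂ] H G Unit := up ∘L T ∘L down
  have hdu : ∀ x, down (up x) = x := fun x => by ext g; rfl
  have hud : ∀ x, up (down x) = x := fun x => by ext ⟨u, g⟩; rfl
  have hE : Equi T' := by
    intro g v
    ext ⟨u, y⟩
    exact convR_left two_ne_top' hc g (down v) (down (lam g v)) (fun y => rfl) y
  have hb : ∀ x, ‖x‖ ≤ K * ‖T' x‖ := by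
    intro x
    have h1 : ‖x‖ ≤ ‖down x‖ := by
      rw [← hud x, hdu]
      exact norm_compL_apply_le _ _ _ _
    have h2 : ‖T (down x)‖ ≤ ‖T' x‖ := by
      have : T (down x) = down (T' x) := by
        show T (down x) = down (up (T (down x)))
        rw [hdu]
      rw [this]
      exact norm_compL_apply_le _ _ _ _
    exact h1.trans ((hK _).trans (mul_le_mul_of_nonneg_left h2 K.2))
  have hanti : AntilipschitzWith K T' := ContinuousLinearMap.antilipschitz_of_bound T' hb
  obtain ⟨S, hS, hort, htr⟩ := range_trace hE hanti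
  have hw : ‖T' (S (bas ()))‖ ^ 2 = 1 := by
    have := htr
    rw [Fintype.card_unit] at this
    simpa using this
  have hz : (bas () : H G Unit) - T' (S (bas ())) = 0 := by
    rw [← @inner_self_eq_zero ℂ, inner_sub_left, hort, sub_zero, inner_sub_right]
    have h4 := hort (bas ()) (S (bas ()))
    rw [inner_sub_right, sub_eq_zero] at h4
    have h6 : inner ℂ (bas () : H G Unit) (T' (S (bas ()))) =
        inner ℂ (T' (S (bas ()))) (T' (S (bas ()))) := by
      have h7 : (starRingEnd ℂ) (inner ℂ (T' (S (bas ()))) (bas ())) =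
          (starRingEnd ℂ) (inner ℂ (T' (S (bas ()))) (T' (S (bas ())))) := by rw [h4]
      rw [inner_conj_symm, inner_conj_symm] at h7
      exact h7
    rw [h6, inner_self_eq_norm_sq_to_K, inner_self_eq_norm_sq_to_K, norm_bas]
    have h8 : ((‖T' (S (bas ()))‖ : ℂ)) ^ 2 = 1 := by exact_mod_cast hw
    simp only [Complex.coe_algebraMap] at *
    rw [h8]; simp
  have h9 : ∀ y, convR 2 two_ne_top' c (down (S (bas ()))) y = (bas () : H G Unit) ((), y) := by
    intro y
    have : (T' (S (bas ()))) ((), y) = (bas () : H G Unit) ((), y) := by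
      rw [← sub_eq_zero.1 hz]
    exact this
  refine ⟨down (S (bas ())), ?_, fun y hy => ?_⟩
  · rw [h9, bas_self]
  · rw [h9, bas_ne]
    intro h
    exact hy (Prod.ext_iff.1 h).2

section Main

open FreeGroup

variable {ι : Type*} [DecidableEq ι]

/-- average of the children -/
noncomputable def Mop (p : ℝ≥0∞) [Fact (1 ≤ p)] (hp' : p ≠ ∞) (S : Finset ι) :
    L p (FreeGroup ι) →L[ℂ] L p (FreeGroup ι) :=
  ((S.card : ℂ))⁻¹ • ∑ k ∈ S, compL p hp' (phi k) (fun _ _ h => (phi_inj k k _ _ h).2)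

/-- average of the edge terms -/
noncomputable def Eop (p : ℝ≥0∞) [Fact (1 ≤ p)] (hp' : p ≠ ∞) (S : Finset ι)
    (c : ι → FreeGroup ι → ℂ) : L p (FreeGroup ι) →L[ℂ] L p (FreeGroup ι) :=
  ((S.card : ℂ))⁻¹ • ∑ k ∈ S, (scompL p hp' (sgn k) (norm_sgn k) (edg k) (edg_inj k)) ∘L
    (convR p hp' (c k))

variable {p : ℝ≥0∞} [Fact (1 ≤ p)] (hp' : p ≠ ∞) (S : Finset ι)

lemma Mop_apply (x : L p (FreeGroup ι)) (g : FreeGroup ι) :
    Mop p hp' S x g = ((S.card : ℂ))⁻¹ * ∑ k ∈ S, x (phi k g) := by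
  unfold Mop
  rw [smul_apply, sum_apply, lp.coeFn_smul, Pi.smul_apply,
    lp.coeFn_sum, Finset.sum_apply, smul_eq_mul]
  rfl

lemma Eop_apply (c : ι → FreeGroup ι → ℂ) (x : L p (FreeGroup ι)) (g : FreeGroup ι) :
    Eop p hp' S c x g =
      ((S.card : ℂ))⁻¹ * ∑ k ∈ S, sgn k g * convR p hp' (c k) x (edg k g) := by
  unfold Eop
  rw [smul_apply, sum_apply, lp.coeFn_smul, Pi.smul_apply,
    lp.coeFn_sum, Finset.sum_apply, smul_eq_mul]
  rfl

lemma norm_Eop_le (c : ι → FreeGroup ι → ℂ) (hc : ∀ k ∈ S, Summable (fun h => ‖c k h‖)) :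
    ‖Eop p hp' S c‖ ≤ ((S.card : ℝ))⁻¹ * ∑ k ∈ S, ∑' h, ‖c k h‖ := by
  unfold Eop
  rw [norm_smul, norm_inv]
  have : ‖(S.card : ℂ)‖ = (S.card : ℝ) := by simp
  rw [this]
  refine mul_le_mul_of_nonneg_left ?_ (by positivity)
  refine le_trans (norm_sum_le _ _) (Finset.sum_le_sum fun k hk => ?_)
  refine le_trans (ContinuousLinearMap.opNorm_comp_le _ _) ?_
  refine le_trans (mul_le_of_le_one_left (norm_nonneg _) (norm_scompL_le _ _ _ _ _)) ?_
  exact norm_convR_le hp' (hc k hk)

lemma norm_Mop_rpow (hS : S.Nonempty) (x : L p (FreeGroup ι)) :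
    ‖Mop p hp' S x‖ ^ p.toReal ≤ (S.card : ℝ)⁻¹ * ‖x‖ ^ p.toReal :=
  avg_rpow_le hp' S hS phi (fun k _ k' _ g g' h => phi_inj k k' g g' h) x _ (Mop_apply hp' S x)

lemma norm_Mop_one (hS : S.Nonempty) : ‖Mop 1 ENNReal.one_ne_top S‖ ≤ (√(S.card : ℝ))⁻¹ := by
  refine ContinuousLinearMap.opNorm_le_bound _ (by positivity) fun x => ?_
  have h := norm_Mop_rpow (p := 1) ENNReal.one_ne_top S hS x
  rw [ENNReal.toReal_one, Real.rpow_one, Real.rpow_one] at h
  have hc1 : (1 : ℝ) ≤ S.card := by exact_mod_cast hS.card_pos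
  refine h.trans (mul_le_mul_of_nonneg_right ?_ (norm_nonneg _))
  apply inv_anti₀ (by positivity)
  rw [Real.sqrt_le_left (by positivity)]
  nlinarith

lemma norm_Mop_two (hS : S.Nonempty) : ‖Mop 2 two_ne_top' S‖ ≤ (√(S.card : ℝ))⁻¹ := by
  refine ContinuousLinearMap.opNorm_le_bound _ (by positivity) fun x => ?_
  have h := norm_Mop_rpow (p := 2) two_ne_top' S hS x
  rw [ENNReal.toReal_ofNat] at h
  have hc1 : (1 : ℝ) ≤ S.card := by exact_mod_cast hS.card_pos
  have h2 : ‖Mop 2 two_ne_top' S x‖ ^ 2 ≤ ((√(S.card : ℝ))⁻¹ * ‖x‖) ^ 2 := by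
    rw [mul_pow, inv_pow, Real.sq_sqrt (by positivity)]
    exact_mod_cast h
  exact le_of_sq_le_sq h2 (by positivity)
    |> fun h => h

/-- decomposition of a vector along the children -/
lemma key_identity (hS : S.Nonempty) {b : FreeGroup ι → ℂ} (hb : Summable (fun h => ‖b h‖))
    {c : ι → FreeGroup ι → ℂ} (hc : ∀ k ∈ S, Summable (fun h => ‖c k h‖))
    {E : ι → FreeGroup ι → ℂ} (hE : ∀ k ∈ S, Summable (fun h => ‖E k h‖))
    (hEc : ∀ k ∈ S, ∀ x, delt (FreeGroup.of k) x = conv b (c k) x + E k x)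
    (x : L p (FreeGroup ι)) :
    x = Mop p hp' S x + Eop p hp' S c (convR p hp' b x) + Eop p hp' S E x := by
  have hc0 : (S.card : ℂ) ≠ 0 := by exact_mod_cast hS.card_pos.ne'
  ext g
  rw [lp.coeFn_add, Pi.add_apply, lp.coeFn_add, Pi.add_apply, Mop_apply, Eop_apply, Eop_apply,
    ← mul_add, ← mul_add, ← Finset.sum_add_distrib, ← Finset.sum_add_distrib]
  have h1 : ∀ k ∈ S, x (phi k g) + sgn k g * convR p hp' (c k) (convR p hp' b x) (edg k g) +
      sgn k g * convR p hp' (E k) x (edg k g) = x g := by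
    intro k hk
    have h2 := convR_add hp' (summable_conv' hb (hc k hk)) (hE k hk) x (edg k g)
    rw [convR_conv hp' hb (hc k hk)] at h2
    have h3 : HasSum (fun h => (conv b (c k) h + E k h) * x (edg k g * h⁻¹))
        (x (edg k g * 1⁻¹) - x (edg k g * (FreeGroup.of k)⁻¹)) := by
      refine (delt_hasSum (FreeGroup.of k) (fun h => x (edg k g * h⁻¹))).congr_fun fun h => ?_
      rw [hEc k hk]
    have h4 := h2.unique h3
    rw [inv_one, mul_one] at h4
    rw [add_assoc, ← mul_add, h4]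
    exact (child_identity k x g).symm
  rw [Finset.sum_congr rfl h1, Finset.sum_const, nsmul_eq_mul, inv_mul_cancel_left₀ hc0]

/-- inclusion of `ℓ¹` into `ℓ²` -/
noncomputable def incl {κ : Type*} (x : L 1 κ) : L 2 κ :=
  ⟨x, (lp.memℓp x).of_exponent_ge (by norm_num)⟩

lemma convR_incl {G : Type*} [Group G] {c : G → ℂ} (hc : Summable (fun h => ‖c h‖)) (x : L 1 G)
    (y : G) : convR 2 two_ne_top' c (incl x) y = convR 1 ENNReal.one_ne_top c x y := by
  rw [← (convR_apply two_ne_top' hc (incl x) y).tsum_eq,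
    ← (convR_apply ENNReal.one_ne_top hc x y).tsum_eq]
  rfl

theorem single_gen {b : FreeGroup ι → ℂ} (hb : Summable (fun h => ‖b h‖))
    (hb0 : ∑' x, b x = 0) {c : ι → FreeGroup ι → ℂ}
    (hc : ∀ k ∈ S, Summable (fun h => ‖c k h‖)) :
    (S.card : ℝ) - √(S.card : ℝ) ≤
      ∑ k ∈ S, ∑' x, ‖delt (FreeGroup.of k) x - conv b (c k) x‖ := by
  by_contra hlt
  push Not at hlt
  set E : ι → FreeGroup ι → ℂ := fun k x => delt (FreeGroup.of k) x - conv b (c k) x with hEdef
  have hE : ∀ k ∈ S, Summable (fun h => ‖E k h‖) := by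
    intro k hk
    refine Summable.of_nonneg_of_le (fun _ => norm_nonneg _) (fun h => norm_sub_le _ _)
      ((delt_summable (FreeGroup.of k)).add (summable_conv' hb (hc k hk)))
  have hEc : ∀ k ∈ S, ∀ x, delt (FreeGroup.of k) x = conv b (c k) x + E k x := by
    intro k _ x
    rw [hEdef]; ring
  have hEnn : 0 ≤ ∑ k ∈ S, ∑' x, ‖E k x‖ :=
    Finset.sum_nonneg fun k _ => tsum_nonneg fun _ => norm_nonneg _
  have hS : S.Nonempty := by
    by_contra h
    rw [Finset.not_nonempty_iff_eq_empty] at h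
    subst h
    simp at hlt
  have hcR : (0 : ℝ) < S.card := by exact_mod_cast hS.card_pos
  have hsq : 0 < √(S.card : ℝ) := Real.sqrt_pos.2 hcR
  set q : ℝ := (√(S.card : ℝ))⁻¹ + ((S.card : ℝ))⁻¹ * ∑ k ∈ S, ∑' x, ‖E k x‖ with hq
  have hq1 : q < 1 := by
    have h1 : ((S.card : ℝ))⁻¹ * ∑ k ∈ S, ∑' x, ‖E k x‖ <
        ((S.card : ℝ))⁻¹ * ((S.card : ℝ) - √(S.card : ℝ)) :=
      mul_lt_mul_of_pos_left hlt (by positivity)
    have h2 : ((S.card : ℝ))⁻¹ * ((S.card : ℝ) - √(S.card : ℝ)) = 1 - (√(S.card : ℝ))⁻¹ := by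
      rw [mul_sub, inv_mul_cancel₀ hcR.ne']
      congr 1
      nth_rewrite 1 [← Real.mul_self_sqrt hcR.le]
      rw [mul_inv, mul_assoc, inv_mul_cancel₀ hsq.ne', mul_one]
    rw [hq]
    linarith
  -- bounded below on the Hilbert space
  set C : ℝ := ((S.card : ℝ))⁻¹ * ∑ k ∈ S, ∑' x, ‖c k x‖ with hC
  have hC0 : 0 ≤ C := by
    rw [hC]
    exact mul_nonneg (by positivity)
      (Finset.sum_nonneg fun k _ => tsum_nonneg fun _ => norm_nonneg _)
  have hQ2 : ∀ x : L 2 (FreeGroup ι),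
      ‖Mop 2 two_ne_top' S x + Eop 2 two_ne_top' S E x‖ ≤ q * ‖x‖ := by
    intro x
    refine (norm_add_le _ _).trans ?_
    rw [hq, add_mul]
    exact add_le_add ((Mop 2 two_ne_top' S).le_of_opNorm_le (norm_Mop_two S hS) x)
      ((Eop 2 two_ne_top' S E).le_of_opNorm_le (norm_Eop_le _ S E hE) x)
  have hlow : ∀ x : L 2 (FreeGroup ι), ‖x‖ ≤
      (⟨C / (1 - q), by
        exact div_nonneg hC0 (by linarith)⟩ : ℝ≥0) * ‖convR 2 two_ne_top' b x‖ := by
    intro x
    have h1 := key_identity two_ne_top' S hS hb hc hE hEc x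
    have h2 : ‖x‖ ≤ q * ‖x‖ + C * ‖convR 2 two_ne_top' b x‖ := by
      calc ‖x‖ = ‖(Mop 2 two_ne_top' S x + Eop 2 two_ne_top' S E x) +
            Eop 2 two_ne_top' S c (convR 2 two_ne_top' b x)‖ := by
              have h3 := congrArg (fun a => ‖a‖) h1
              refine h3.trans ?_
              rw [add_right_comm]
        _ ≤ q * ‖x‖ + C * ‖convR 2 two_ne_top' b x‖ := by
              refine (norm_add_le _ _).trans (add_le_add (hQ2 x) ?_)
              exact (Eop 2 two_ne_top' S c).le_of_opNorm_le (norm_Eop_le _ S c hc) _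
    show ‖x‖ ≤ C / (1 - q) * ‖convR 2 two_ne_top' b x‖
    rw [div_mul_eq_mul_div, le_div_iff₀ (by linarith)]
    linarith
  obtain ⟨h, hh1, hh0⟩ := surj_of_bounded_below hb hlow
  -- the fixed point in `ℓ¹`
  set Q : L 1 (FreeGroup ι) →L[ℂ] L 1 (FreeGroup ι) :=
    Mop 1 ENNReal.one_ne_top S + Eop 1 ENNReal.one_ne_top S E with hQdef
  have hQ1 : ‖Q‖ < 1 := by
    refine lt_of_le_of_lt (norm_add_le _ _) (lt_of_le_of_lt ?_ hq1)
    rw [hq]
    exact add_le_add (norm_Mop_one S hS) (norm_Eop_le _ S E hE)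
  set d1 : L 1 (FreeGroup ι) := lp.single 1 1 1 with hd1
  set u1 := Eop 1 ENNReal.one_ne_top S c d1 with hu1
  obtain ⟨h', hh'⟩ : ∃ h' : L 1 (FreeGroup ι), h' = Q h' + u1 := by
    set v : L 1 (FreeGroup ι) := ((Units.oneSub Q hQ1)⁻¹ :
      (L 1 (FreeGroup ι) →L[ℂ] L 1 (FreeGroup ι))ˣ).1 u1 with hv
    refine ⟨v, ?_⟩
    have h2 : (Units.oneSub Q hQ1).1 * ((Units.oneSub Q hQ1)⁻¹).1 = 1 := Units.mul_inv _
    have h3 := congrArg (fun f : L 1 (FreeGroup ι) →L[ℂ] L 1 (FreeGroup ι) => f u1) h2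
    have h1 : v - Q v = u1 := h3
    rw [← h1]
    exact (add_sub_cancel _ _).symm
  have hbh : ∀ y, convR 2 two_ne_top' b h y = d1 y := by
    intro y
    by_cases hy : y = 1
    · subst hy; rw [hh1, hd1, lp.single_apply_self]
    · rw [hh0 y hy, hd1, lp.single_apply_ne _ _ _ hy]
  -- both solutions agree
  have hdiff : h - incl h' = Mop 2 two_ne_top' S (h - incl h') +
      Eop 2 two_ne_top' S E (h - incl h') := by
    have h1 := key_identity two_ne_top' S hS hb hc hE hEc h
    have h2 : Eop 2 two_ne_top' S c (convR 2 two_ne_top' b h) = incl u1 := by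
      ext g
      rw [Eop_apply]
      show _ = u1 g
      rw [hu1, Eop_apply]
      congr 1
      refine Finset.sum_congr rfl fun k hk => ?_
      congr 1
      have h3 : convR 2 two_ne_top' b h = incl d1 := by
        ext y; exact hbh y
      rw [h3, convR_incl (hc k hk)]
    have h4 : incl h' = Mop 2 two_ne_top' S (incl h') + Eop 2 two_ne_top' S E (incl h') +
        incl u1 := by
      ext g
      rw [lp.coeFn_add, Pi.add_apply, lp.coeFn_add, Pi.add_apply, Mop_apply, Eop_apply]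
      have h5 : h' g = Q h' g + u1 g := by
        nth_rewrite 1 [hh']
        rfl
      have h6 : Q h' g = Mop 1 ENNReal.one_ne_top S h' g + Eop 1 ENNReal.one_ne_top S E h' g :=
        rfl
      rw [h6, Mop_apply, Eop_apply] at h5
      show h' g = _ + _ + u1 g
      rw [h5]
      congr 2
      congr 1
      refine Finset.sum_congr rfl fun k hk => ?_
      rw [convR_incl (hE k hk)]
    have h7 := congrArg₂ (fun a a' => a - a') h1 h4
    rw [h2] at h7
    refine h7.trans ?_
    rw [map_sub, map_sub]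
    abel
  have hzero : h - incl h' = 0 := by
    have h1 := hQ2 (h - incl h')
    rw [← hdiff] at h1
    have h2 : (1 - q) * ‖h - incl h'‖ ≤ 0 := by linarith
    have h3 : ‖h - incl h'‖ ≤ 0 := by
      by_contra h4
      push Not at h4
      nlinarith
    exact norm_le_zero_iff.1 h3
  have hheq : h = incl h' := sub_eq_zero.1 hzero
  -- augmentation
  have hs' : Summable (fun x => ‖h' x‖) := by
    have := (memℓp_gen_iff (p := 1) (by simp)).1 (lp.memℓp h')
    simpa using this
  have h7 : ∀ y, conv h' b y = d1 y := by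
    intro y
    rw [← convR_eq_conv ENNReal.one_ne_top hb h' y, ← convR_incl hb, ← hheq, hbh]
  have h8 := conv_sum hs' hb
  rw [hb0, mul_zero, tsum_congr h7] at h8
  have h9 : ∑' y, d1 y = 1 := by
    rw [tsum_eq_single (1 : FreeGroup ι)]
    · rw [hd1, lp.single_apply_self]
    · intro y hy
      rw [hd1, lp.single_apply_ne _ _ _ hy]
  rw [h9] at h8
  exact one_ne_zero h8

end Main

end Pool.Agent.H14.NS
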